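import Pool.Agent.Lib.MP_a3e05c_co.Q.Steps

set_option autoImplicit false
set_option linter.unusedSectionVars false

/-! The analytic part of the strengthened clique theorem. -/

namespace Pool.Agent.MP_a3e05c_co

open scoped NNReal Real
open Finset

variable {m : ℕ} [NeZero m]
variable {V : Type*} [Fintype V] [DecidableEq V] [LinearOrder V] (G : SimpleGraph V)
  [DecidableRel G.Adj]

lemma E1_rpow (y : ℝ) : ((E1 ^ y : ℝ≥0) : ℝ) = Real.exp (-(1 / 256 * y)) := by
  rw [NNReal.coe_rpow]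
  show Real.exp (-(1 / 256)) ^ y = _
  rw [← Real.exp_mul]
  congr 1
  ring

lemma E2_rpow (d : ℕ) (y : ℝ) :
    ((E2 d ^ y : ℝ≥0) : ℝ) = Real.exp (-(Real.log d / (4 * d) * y)) := by
  rw [NNReal.coe_rpow]
  show Real.exp (-(Real.log d / (4 * d))) ^ y = _
  rw [← Real.exp_mul]
  congr 1
  ring

lemma La_rpow_le {d : ℕ} (hd : 600 ≤ d) {y : ℝ} (hy : 0 ≤ y) :
    ((La d ^ y : ℝ≥0) : ℝ) ≤ Real.exp (Real.log d * y) := by
  have hdR : (600 : ℝ) ≤ d := by exact_mod_cast hd
  have h0 : (0 : ℝ) < d := by linarith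
  have h1 : ((La d : ℝ≥0) : ℝ) ≤ d := by
    show 24 * √((d : ℝ) + 1) ≤ d
    have h2 : √((d : ℝ) + 1) ≤ d / 24 := by
      rw [Real.sqrt_le_left (by positivity)]
      nlinarith
    linarith
  rw [NNReal.coe_rpow, ← Real.rpow_def_of_pos h0]
  exact Real.rpow_le_rpow (by positivity) h1 hy

lemma gain_le {d : ℕ} (hd : 600 ≤ d) (hgood : Good m d) (hG : ∀ v, G.degree v = d)
    {D : Finset V} {s : ℝ} (hs : Gain G (1 / 1024) 1 d D s) :
    ((av (WD G (WQ : ZMod m → ZMod m → ℝ≥0) D) : ℝ≥0) : ℝ) ≤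
      Real.exp (-s) * (ka m (d + 1) : ℝ) ^ Fintype.card V := by
  have hdR : (600 : ℝ) ≤ d := by exact_mod_cast hd
  have h0 : (0 : ℝ) < d := by linarith
  have hlog : 0 ≤ Real.log d := Real.log_nonneg (by linarith)
  have hlogd : Real.log d ≤ d := by
    have := Real.log_le_sub_one_of_pos h0
    linarith
  induction hs with
  | empty =>
    rw [WD_empty G hG]
    simp only [neg_zero, Real.exp_zero, one_mul]
    exact le_of_eq (by push_cast; rfl)
  | weaken h1 h2 ih =>
    refine ih.trans ?_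
    apply mul_le_mul_of_nonneg_right _ (by positivity)
    exact Real.exp_le_exp.mpr (by linarith)
  | @good D s z h1 hz hz0 hz1 hz2 ih =>
    have ih' := ih
    have hsum := sum_N G D z
    have hdeg := degIn_add G hG D z
    by_cases hf : d ≤ 4 * freshN G D z
    · have h2 := step_great G hgood hG hz hz0 hz1
      have h3 : ((av (WD G (WQ : ZMod m → ZMod m → ℝ≥0) (insert z D)) : ℝ≥0) : ℝ) ≤
          ((E1 ^ ((freshN G D z : ℝ) / ((d : ℝ) - 1)) : ℝ≥0) : ℝ) *
            ((av (WD G (WQ : ZMod m → ZMod m → ℝ≥0) D) : ℝ≥0) : ℝ) := by exact_mod_cast h2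
      rw [E1_rpow] at h3
      refine h3.trans ((mul_le_mul_of_nonneg_left ih' (Real.exp_pos _).le).trans ?_)
      rw [← mul_assoc, ← Real.exp_add]
      apply mul_le_mul_of_nonneg_right _ (by positivity)
      apply Real.exp_le_exp.mpr
      have hfR : (d : ℝ) ≤ 4 * freshN G D z := by exact_mod_cast hf
      have h4 : 1 / 4 ≤ (freshN G D z : ℝ) / ((d : ℝ) - 1) := by
        rw [div_le_div_iff₀ (by norm_num) (by linarith)]
        linarith
      have h5 : 1 / 1024 * Real.log d / d ≤ 1 / 1024 := by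
        rw [div_le_iff₀ h0]
        linarith
      linarith
    · have h2 := step_once G hgood hG hz hz0
      have h3 : ((av (WD G (WQ : ZMod m → ZMod m → ℝ≥0) (insert z D)) : ℝ≥0) : ℝ) ≤
          ((E2 d ^ ((onceN G D z : ℝ) / d) : ℝ≥0) : ℝ) *
            ((av (WD G (WQ : ZMod m → ZMod m → ℝ≥0) D) : ℝ≥0) : ℝ) := by exact_mod_cast h2
      rw [E2_rpow] at h3
      refine h3.trans ((mul_le_mul_of_nonneg_left ih' (Real.exp_pos _).le).trans ?_)
      rw [← mul_assoc, ← Real.exp_add]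
      apply mul_le_mul_of_nonneg_right _ (by positivity)
      apply Real.exp_le_exp.mpr
      have hoR : (d : ℝ) ≤ 4 * onceN G D z := by
        have : d ≤ 4 * onceN G D z := by omega
        exact_mod_cast this
      have h4 : 1 / 4 ≤ (onceN G D z : ℝ) / d := by
        rw [div_le_div_iff₀ (by norm_num) h0]
        linarith
      have h5 : 1 / 1024 * Real.log d / d = Real.log d / (4 * d) * (1 / 256) := by
        field_simp
        ring
      have h6 : 0 ≤ Real.log d / (4 * d) := by positivity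
      have h7 : Real.log d / (4 * d) * (1 / 256) ≤ Real.log d / (4 * d) * ((onceN G D z : ℝ) / d) :=
        mul_le_mul_of_nonneg_left (by linarith) h6
      linarith
  | @great D s z h1 hz hz0 hz1 ih =>
    have ih' := ih
    have h2 := step_great G hgood hG hz hz0 hz1
    have h3 : ((av (WD G (WQ : ZMod m → ZMod m → ℝ≥0) (insert z D)) : ℝ≥0) : ℝ) ≤
        ((E1 ^ ((freshN G D z : ℝ) / ((d : ℝ) - 1)) : ℝ≥0) : ℝ) *
          ((av (WD G (WQ : ZMod m → ZMod m → ℝ≥0) D) : ℝ≥0) : ℝ) := by exact_mod_cast h2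
    rw [E1_rpow] at h3
    refine h3.trans ((mul_le_mul_of_nonneg_left ih' (Real.exp_pos _).le).trans ?_)
    rw [← mul_assoc, ← Real.exp_add]
    apply mul_le_mul_of_nonneg_right _ (by positivity)
    apply Real.exp_le_exp.mpr
    have h4 : (freshN G D z : ℝ) / d ≤ (freshN G D z : ℝ) / ((d : ℝ) - 1) :=
      div_le_div_of_nonneg_left (by positivity) (by linarith) (by linarith)
    have h5 : 0 ≤ (freshN G D z : ℝ) / d := by positivity
    have h6 : 1 / 1024 * (freshN G D z : ℝ) / d = 1 / 1024 * ((freshN G D z : ℝ) / d) := by ring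
    rw [h6]
    linarith
  | @step D s z h1 hz ih =>
    have ih' := ih
    have h2 := step_hub (m := m) G (by omega : 0 < d) hG hz
    have h3 : ((av (WD G (WQ : ZMod m → ZMod m → ℝ≥0) (insert z D)) : ℝ≥0) : ℝ) ≤
        ((La d ^ ((degIn G D z : ℝ) / d) : ℝ≥0) : ℝ) *
          ((av (WD G (WQ : ZMod m → ZMod m → ℝ≥0) D) : ℝ≥0) : ℝ) := by exact_mod_cast h2
    have h4 := La_rpow_le hd (y := (degIn G D z : ℝ) / d) (by positivity)
    refine h3.trans ((mul_le_mul h4 ih' (by positivity) (Real.exp_pos _).le).trans ?_)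
    rw [← mul_assoc, ← Real.exp_add]
    apply mul_le_mul_of_nonneg_right _ (by positivity)
    apply Real.exp_le_exp.mpr
    have h6 : 1 * (degIn G D z : ℝ) * Real.log d / d = Real.log d * ((degIn G D z : ℝ) / d) := by
      ring
    rw [h6]
    linarith

/-- **The analytic part.** -/
theorem analyticPart : AnalyticPart := by
  obtain ⟨d₀, hd₀⟩ := exists_good
  refine ⟨1 / 1024, 1, by norm_num, by norm_num, max d₀ 600, fun d hd => ?_⟩
  have h600 : 600 ≤ d := le_trans (le_max_right _ _) hd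
  refine ⟨5 * d ^ 2, fun m hm _ V _ _ _ G _ hG D s hs => ?_⟩
  have hU : Up m d := up_exists d m hm
  have hgood := hd₀ d (le_trans (le_max_left _ _) hd) m hU
  have h1 := gain_le G h600 hgood hG hs
  have h2 := hom_le_WD G (isPos_WQ (m := m)) D
  have h3 : (hom G (WQ : ZMod m → ZMod m → ℝ≥0) univ (fun _ _ => 1) : ℝ) ≤
      ((av (WD G (WQ : ZMod m → ZMod m → ℝ≥0) D) : ℝ≥0) : ℝ) := by exact_mod_cast h2
  refine h3.trans (h1.trans (le_of_eq ?_))
  congr 1
  have h4 : (ka m (d + 1) : ℝ) ^ (d + 1) = (NQ m (d + 1) : ℝ) := by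
    have := ka_pow (m := m) (n := d + 1) (by omega)
    exact_mod_cast this
  rw [← h4, ← Real.rpow_natCast, ← Real.rpow_natCast, ← Real.rpow_mul (by positivity)]
  congr 1
  push_cast
  have : ((d : ℝ) + 1) ≠ 0 := by positivity
  field_simp

end Pool.Agent.MP_a3e05c_co
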