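import Pool.Agent.Lib.MP_a3e05c_co.Q.Gain
import Pool.Agent.Lib.MP_a3e05c_co.Pins.Main

set_option autoImplicit false

/-!
# MP_a3e05c_co: the combinatorial part of the strengthened clique theorem
-/

namespace Pool.Agent.MP_a3e05c_co

open Finset

theorem degIn_eq_seen {V : Type*} [Fintype V] [DecidableEq V] (G : SimpleGraph V)
    [DecidableRel G.Adj] (D : Finset V) (v : V) : degIn G D v = Pins.seen G D v := by
  unfold degIn Pins.seen
  congr 1

theorem gain_of_pins {V : Type*} [Fintype V] [DecidableEq V] {G : SimpleGraph V}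
    [DecidableRel G.Adj] {c C : ℝ} {d : ℕ} {D : Finset V} {s : ℝ}
    (h : Pins.Gain G d (c * Real.log d / d) c (C * Real.log d) D s) : Gain G c C d D s := by
  induction h with
  | empty => exact Gain.empty
  | weaken _ h2 ih => exact ih.weaken h2
  | good _ h2 h3 h4 h5 ih =>
    refine ih.good h2 (by rwa [degIn_eq_seen]) ?_ ?_
    · unfold onceN
      simp only [degIn_eq_seen]
      exact h4
    · unfold multiN
      simp only [degIn_eq_seen]
      exact h5
  | @full D s z _ h2 h3 h4 ih =>
    have h6 := ih.great h2 (by rwa [degIn_eq_seen]) (by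
      unfold onceN
      simp only [degIn_eq_seen]
      exact h4)
    have h7 : freshN G D z = Pins.nb0 G D z := by
      unfold freshN
      simp only [degIn_eq_seen]
      rfl
    rwa [h7] at h6
  | @hub D s z _ h2 ih =>
    have h6 := ih.step h2
    rw [degIn_eq_seen] at h6
    refine h6.weaken (le_of_eq ?_)
    ring

theorem combPart : CombPart := by
  intro c C A hc hC hA
  obtain ⟨K, hK, hmain⟩ := Pins.exists_gain hA hc
  -- `log d` is large and small compared with `d`
  have h1 : Filter.Tendsto (fun d : ℕ => c * Real.log d) Filter.atTop Filter.atTop :=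
    (Real.tendsto_log_atTop.comp tendsto_natCast_atTop_atTop).const_mul_atTop hc
  have h2 : Filter.Tendsto (fun d : ℕ => Real.log d / (d : ℝ)) Filter.atTop (nhds 0) :=
    (Real.isLittleO_log_id_atTop.tendsto_div_nhds_zero).comp tendsto_natCast_atTop_atTop
  have h3 : ∀ᶠ d : ℕ in Filter.atTop, K ≤ c * Real.log d := h1.eventually_ge_atTop K
  have h4 : ∀ᶠ d : ℕ in Filter.atTop, Real.log d / (d : ℝ) < 1 / (K * C) :=
    h2.eventually_lt_const (by positivity)
  have h5 : ∀ᶠ d : ℕ in Filter.atTop, K ≤ (d : ℝ) :=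
    tendsto_natCast_atTop_atTop.eventually_ge_atTop K
  obtain ⟨d₀, hd₀⟩ := Filter.eventually_atTop.1
    (h3.and (h4.and (h5.and (Filter.eventually_ge_atTop 1))))
  refine ⟨d₀, fun d hd V _ _ G _ hG hS => ?_⟩
  obtain ⟨h6, h7, h8, h9⟩ := hd₀ d hd
  have hd' : (0 : ℝ) < d := by exact_mod_cast h9
  have hlog : 0 ≤ Real.log d := Real.log_natCast_nonneg d
  obtain ⟨D, s, hg, hs⟩ := hmain d (c * Real.log d / d) (C * Real.log d) h8
    (by rw [div_mul_cancel₀ _ hd'.ne']; exact h6) (by positivity)
    (by
      rw [div_lt_div_iff₀ hd' (by positivity), one_mul] at h7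
      linarith) G hG
    (by
      intro Q hQ hall
      refine hS Q hQ ?_
      intro v hv w hw hne
      exact hall v hv w hw hne)
  exact ⟨D, s, gain_of_pins hg, hs⟩

end Pool.Agent.MP_a3e05c_co
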