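import Pool.Agent.Lib.MP_a3e05c_co.Q.Kern
import Pool.Agent.Lib.MP_a3e05c_co.Pointwise

set_option autoImplicit false
set_option linter.unusedSectionVars false

/-! Upper and lower bounds for discrete Gaussian type sums. -/

namespace Pool.Agent.MP_a3e05c_co

open scoped NNReal Real
open Finset MeasureTheory

lemma integral_Ex_le {l : ℝ} (hl : 0 < l) :
    (2 * π)⁻¹ * ∫ φ in (-π)..π, Ex l φ ≤ 1 / 2 * √(π / (2 * l)) := by
  have hpi := Real.pi_pos
  have hb : 0 < 2 * l / π ^ 2 := by positivity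
  have h1 : ∫ φ in (-π)..π, Ex l φ ≤ ∫ φ in (-π)..π, Real.exp (-(2 * l / π ^ 2) * φ ^ 2) := by
    apply intervalIntegral.integral_mono_on (by linarith)
    · exact (Ex_continuous l).intervalIntegrable _ _
    · apply Continuous.intervalIntegrable
      fun_prop
    · intro φ hφ
      unfold Ex
      apply Real.exp_le_exp.mpr
      have h2 := Real.cos_le_one_sub_mul_cos_sq (abs_le.mpr ⟨hφ.1, hφ.2⟩)
      have h3 : -(2 * l / π ^ 2) * φ ^ 2 = -(l * (2 / π ^ 2 * φ ^ 2)) := by ring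
      rw [h3]
      apply neg_le_neg
      apply mul_le_mul_of_nonneg_left _ hl.le
      linarith
  have h2 : ∫ φ in (-π)..π, Real.exp (-(2 * l / π ^ 2) * φ ^ 2) ≤
      ∫ φ, Real.exp (-(2 * l / π ^ 2) * φ ^ 2) := by
    rw [intervalIntegral.integral_of_le (by linarith)]
    exact setIntegral_le_integral (integrable_exp_neg_mul_sq hb)
      (Filter.Eventually.of_forall fun φ => (Real.exp_pos _).le)
  rw [integral_gaussian] at h2
  have h3 : √(π / (2 * l / π ^ 2)) = π * √(π / (2 * l)) := by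
    rw [show π / (2 * l / π ^ 2) = π ^ 2 * (π / (2 * l)) by field_simp,
      Real.sqrt_mul (by positivity), Real.sqrt_sq hpi.le]
  rw [h3] at h2
  calc (2 * π)⁻¹ * ∫ φ in (-π)..π, Ex l φ ≤ (2 * π)⁻¹ * (π * √(π / (2 * l))) :=
        mul_le_mul_of_nonneg_left (h1.trans h2) (by positivity)
    _ = _ := by field_simp

/-- The hypothesis on the modulus `m` used for degrees up to `d`. -/
def Up (m : ℕ) [NeZero m] (d : ℕ) : Prop := ∀ k : ℕ, 1 ≤ k → k ≤ d →
  (k : ℝ) * ((av (fun t : ZMod m => WQ t 0 ^ k) : ℝ≥0) : ℝ) ^ 2 ≤ 4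

variable {m : ℕ} [NeZero m]

lemma av_WQ_pow_le (k : ℕ) :
    ((av (fun t : ZMod m => WQ t 0 ^ k) : ℝ≥0) : ℝ) ≤
      rs m ((k : ℝ) / 4) ((((2 * ((k : ℝ) / 8) : ℝ) : ℂ) * sq (0 : ZMod m)).arg) := by
  have h0 : (0 : ℝ) ≤ (k : ℝ) / 8 := by positivity
  have h1 := avR_exp_Q (m := m) 1 (((2 * ((k : ℝ) / 8) : ℝ) : ℂ) * sq (0 : ZMod m))
  have h2 : ‖((2 * ((k : ℝ) / 8) : ℝ) : ℂ) * sq (0 : ZMod m)‖ = (k : ℝ) / 4 := by
    rw [norm_mul, norm_sqc, Complex.norm_real, Real.norm_of_nonneg (by positivity)]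
    ring
  rw [h2, one_mul] at h1
  rw [← h1, av_coe]
  apply avR_mono
  intro t
  rw [Q_ks h0]
  push_cast
  have h3 := WQ_le_exp t (0 : ZMod m)
  have h4 : Real.exp (-(1 * (4 * ((k : ℝ) / 8) * ks (0 : ZMod m) t ^ 2))) =
      Real.exp (-(ks t (0 : ZMod m) ^ 2 / 2)) ^ k := by
    rw [← Real.exp_nat_mul, ks_sq_comm]
    congr 1
    ring
  rw [h4]
  exact pow_le_pow_left₀ (by positivity) h3 k

lemma up_one (k : ℕ) (hk : 1 ≤ k) (hm : 5 * k ^ 2 ≤ m) :
    (k : ℝ) * ((av (fun t : ZMod m => WQ t 0 ^ k) : ℝ≥0) : ℝ) ^ 2 ≤ 4 := by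
  have hkR : (1 : ℝ) ≤ k := by exact_mod_cast hk
  have hmR : 5 * (k : ℝ) ^ 2 ≤ m := by exact_mod_cast hm
  have hm0 : (0 : ℝ) < m := by nlinarith
  have hpi := Real.pi_pos
  have hpi2 := Real.pi_lt_d2
  have h1 := av_WQ_pow_le (m := m) k
  set ψ := (((2 * ((k : ℝ) / 8) : ℝ) : ℂ) * sq (0 : ZMod m)).arg
  have h2 := rs_close (l := (k : ℝ) / 4) (by positivity) ψ (NeZero.pos m)
  have h3 := integral_Ex_le (l := (k : ℝ) / 4) (by positivity)
  have h4 : √(π / (2 * ((k : ℝ) / 4))) ≤ 2.52 / √k := by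
    rw [Real.sqrt_le_left (by positivity), div_pow, Real.sq_sqrt (by positivity),
      div_le_div_iff₀ (by positivity) (by positivity)]
    nlinarith
  have h5 : 4 * π * ((k : ℝ) / 4) / m ≤ 0.63 / √k := by
    rw [div_le_div_iff₀ hm0 (by positivity)]
    have h6 : √(k : ℝ) ≤ k := by
      rw [Real.sqrt_le_left (by positivity)]
      nlinarith
    have h7 : 0 ≤ √(k : ℝ) := Real.sqrt_nonneg _
    have h8 : 4 * π * ((k : ℝ) / 4) * √k ≤ π * k ^ 2 := by nlinarith [mul_nonneg hpi.le (by positivity : (0:ℝ) ≤ k)]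
    nlinarith
  rw [abs_le] at h2
  have h6 : ((av (fun t : ZMod m => WQ t 0 ^ k) : ℝ≥0) : ℝ) ≤ 2 / √k := by
    have e : 2 / √(k : ℝ) = 1 / 2 * (2.52 / √k) + 0.63 / √k + 0.11 / √k := by ring
    have h9 : 0 ≤ 0.11 / √(k : ℝ) := by positivity
    rw [e]
    linarith [h2.2]
  have h7 : ((av (fun t : ZMod m => WQ t 0 ^ k) : ℝ≥0) : ℝ) ^ 2 ≤ (2 / √k) ^ 2 :=
    pow_le_pow_left₀ (by positivity) h6 2
  rw [div_pow, Real.sq_sqrt (by positivity), le_div_iff₀ (by positivity)] at h7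
  linarith

lemma up_exists (d : ℕ) : ∀ m : ℕ, 5 * d ^ 2 ≤ m → ∀ [NeZero m], Up m d := by
  intro m hm _ k hk hkd
  apply up_one k hk
  refine le_trans ?_ hm
  exact Nat.mul_le_mul_left _ (Nat.pow_le_pow_left hkd 2)

lemma ks_zero_natCast {j : ℕ} (hj : j < m) :
    ks (j : ZMod m) 0 = Real.sin (2 * π * j / m) := by
  unfold ks ch
  rw [sub_zero, ZMod.stdAddChar_apply, ZMod.toCircle_apply, ZMod.val_natCast, Nat.mod_eq_of_lt hj]
  have : (2 * π * Complex.I * ((j : ℕ) : ℂ) / m) = ((2 * π * j / m : ℝ) : ℂ) * Complex.I := by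
    push_cast; ring
  rw [this, Complex.exp_ofReal_mul_I_im]

/-- The proportion of phases close to `0`. -/
lemma count_le {L : ℝ} (hL : 1 ≤ L) :
    1 / (2 * π * √L) ≤ avR (fun t : ZMod m => if ks t 0 ^ 2 ≤ 1 / L then (1 : ℝ) else 0) := by
  have hpi := Real.pi_gt_three
  have hm0 : (0 : ℝ) < m := by exact_mod_cast NeZero.pos m
  have hsq : 1 ≤ √L := Real.one_le_sqrt.mpr hL
  set K := ⌊(m : ℝ) / (2 * π * √L)⌋₊ with hK
  have hKm : (K : ℝ) ≤ (m : ℝ) / (2 * π * √L) := Nat.floor_le (by positivity)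
  have hKlt : K < m := by
    have h1 : (m : ℝ) / (2 * π * √L) < m := by
      rw [div_lt_iff₀ (by positivity)]
      have h1' : 1 < 2 * π * √L := by nlinarith
      nlinarith
    exact_mod_cast lt_of_le_of_lt hKm h1
  unfold avR
  rw [ZMod.card, ← Finset.sum_filter, Finset.sum_const, nsmul_eq_mul, mul_one]
  have hcard : K + 1 ≤ (univ.filter fun t : ZMod m => ks t 0 ^ 2 ≤ 1 / L).card := by
    rw [← Finset.card_range (K + 1)]
    apply Finset.card_le_card_of_injOn (fun j : ℕ => (j : ZMod m))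
    · intro j hj
      have hj' : j ≤ K := by
        have := Finset.mem_coe.mp hj
        rw [Finset.mem_range] at this
        omega
      rw [Finset.mem_coe, Finset.mem_filter]
      refine ⟨Finset.mem_univ _, ?_⟩
      dsimp only
      rw [ks_zero_natCast (lt_of_le_of_lt hj' hKlt)]
      have h2 : Real.sin (2 * π * j / m) ^ 2 ≤ (2 * π * j / m) ^ 2 := by
        rw [sq_le_sq]
        exact Real.abs_sin_le_abs
      refine h2.trans ?_
      have h3 : 2 * π * j / m ≤ 1 / √L := by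
        have h4 : (j : ℝ) ≤ (m : ℝ) / (2 * π * √L) := le_trans (by exact_mod_cast hj') hKm
        rw [le_div_iff₀ (by positivity)] at h4
        rw [div_le_div_iff₀ hm0 (by positivity)]
        nlinarith
      calc (2 * π * j / m) ^ 2 ≤ (1 / √L) ^ 2 := pow_le_pow_left₀ (by positivity) h3 2
        _ = 1 / L := by rw [div_pow, one_pow, Real.sq_sqrt (by linarith)]
    · intro i hi j hj hij
      have hi' : i < m := by
        have := Finset.mem_coe.mp hi
        rw [Finset.mem_range] at this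
        omega
      have hj' : j < m := by
        have := Finset.mem_coe.mp hj
        rw [Finset.mem_range] at this
        omega
      have h5 := congrArg ZMod.val hij
      dsimp only at h5
      rw [ZMod.val_natCast, ZMod.val_natCast, Nat.mod_eq_of_lt hi', Nat.mod_eq_of_lt hj'] at h5
      exact h5
  have h6 : (m : ℝ) / (2 * π * √L) ≤
      ((univ.filter fun t : ZMod m => ks t 0 ^ 2 ≤ 1 / L).card : ℝ) := by
    have h7 := (Nat.lt_floor_add_one ((m : ℝ) / (2 * π * √L))).le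
    refine h7.trans ?_
    rw [← hK]
    exact_mod_cast hcard
  rw [← div_eq_inv_mul, le_div_iff₀ hm0]
  refine le_trans (le_of_eq ?_) h6
  ring

end Pool.Agent.MP_a3e05c_co
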