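import Pool.Agent.Lib.MP_a3e05c_co.Q.Ratio

set_option autoImplicit false
set_option linter.unusedSectionVars false

/-! The two facts about the clique which give a gain for a vertex seen once. -/

namespace Pool.Agent.MP_a3e05c_co

open scoped NNReal Real
open Finset

variable {m : ℕ} [NeZero m]

/-- The norm with two pins. -/
noncomputable def aa (m : ℕ) [NeZero m] (n : ℕ) (p t : ZMod m) : ℝ≥0 :=
  nm (WQ : ZMod m → ZMod m → ℝ≥0) n (fun y => WQ p y * WQ t y)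

lemma ks_sq_le_one (x y : ZMod m) : ks x y ^ 2 ≤ 1 := by
  have := kc_sq_add_ks_sq x y
  nlinarith [sq_nonneg (kc x y)]

lemma WQ_mul_le (p t y : ZMod m) :
    ((WQ p y * WQ t y : ℝ≥0) : ℝ) ≤ 1 - 3 / 16 * ks p t ^ 2 := by
  push_cast
  rw [WQ_coe', WQ_coe']
  have h1 := ks_tri p y t
  rw [ks_sq_comm y p, ks_sq_comm y t] at h1
  have h2 := ks_sq_le_one p y
  have h3 := ks_sq_le_one t y
  have h4 := sq_nonneg (ks p y)
  have h5 := sq_nonneg (ks t y)
  nlinarith [sq_nonneg (ks p y ^ 2 - ks t y ^ 2), mul_nonneg h4 h5,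
    mul_nonneg (add_nonneg h4 h5) (by linarith : 0 ≤ 2 - ks p y ^ 2 - ks t y ^ 2)]

lemma avR_ks_sq (p : ZMod m) :
    avR (fun t : ZMod m => ks p t ^ 2) = avR (fun t : ZMod m => ks t 0 ^ 2) := by
  unfold avR
  congr 1
  rw [← Equiv.sum_comp (Equiv.addRight p) (fun t : ZMod m => ks p t ^ 2)]
  apply Finset.sum_congr rfl
  intro c _
  rw [Equiv.coe_addRight]
  dsimp only
  have h := ks_add p c 0
  rw [zero_add] at h
  rw [← h, ks_sq_comm]

lemma avR_ks_ge (hU : Up m 16) (p : ZMod m) : 1 / 16 ≤ avR (fun t : ZMod m => ks p t ^ 2) := by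
  rw [avR_ks_sq]
  have h1 := hU 16 (by norm_num) le_rfl
  set a : ℝ := ((av (fun t : ZMod m => WQ t 0 ^ 16) : ℝ≥0) : ℝ) with ha
  have ha0 : 0 ≤ a := by positivity
  have h2 : a ≤ 1 / 2 := by
    push_cast at h1
    nlinarith
  have h3 : avR (fun t : ZMod m => 1 + (-8) * ks t 0 ^ 2) ≤ a := by
    rw [ha, av_coe]
    apply avR_mono
    intro t
    push_cast
    rw [WQ_coe']
    have h4 := one_add_mul_le_pow (a := -(ks t (0 : ZMod m) ^ 2 / 2)) (by
      have := ks_sq_le_one t (0 : ZMod m)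
      linarith) 16
    push_cast at h4
    have h5 : 1 - ks t (0 : ZMod m) ^ 2 / 2 = 1 + -(ks t (0 : ZMod m) ^ 2 / 2) := by ring
    rw [h5]
    linarith
  rw [avR_add, avR_mul_left] at h3
  have h4 : avR (fun _ : ZMod m => (1 : ℝ)) = 1 := by
    unfold avR
    rw [Finset.sum_const, Finset.card_univ, nsmul_eq_mul, mul_one]
    have : (Fintype.card (ZMod m) : ℝ) ≠ 0 := by exact_mod_cast Fintype.card_ne_zero
    exact inv_mul_cancel₀ this
  rw [h4] at h3
  linarith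

lemma aa_le (n : ℕ) (hn : n ≠ 0) (p t : ZMod m) :
    (aa m n p t : ℝ) ≤ (1 - 3 / 16 * ks p t ^ 2) * ka m n := by
  have h0 : 0 ≤ 1 - 3 / 16 * ks p t ^ 2 := by
    have := ks_sq_le_one p t
    linarith
  set c : ℝ≥0 := ⟨1 - 3 / 16 * ks p t ^ 2, h0⟩ with hc
  have h1 : aa m n p t ≤ c * ka m n := by
    unfold aa ka
    rw [← nm_smul hn]
    apply nm_mono
    intro y
    rw [mul_one, ← NNReal.coe_le_coe]
    exact WQ_mul_le p t y
  exact_mod_cast h1

/-- Fact 1, before inserting the estimates of the norms. -/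
lemma av_aa_le (hU : Up m 16) (n : ℕ) (hn : n ≠ 0) (p : ZMod m) :
    ((av (fun t : ZMod m => aa m n p t) : ℝ≥0) : ℝ) ≤ (1 - 3 / 256) * ka m n := by
  have h1 := avR_ks_ge hU p
  have h2 : ((av (fun t : ZMod m => aa m n p t) : ℝ≥0) : ℝ) ≤
      avR (fun t : ZMod m => (ka m n : ℝ) + (-(3 / 16) * ka m n) * ks p t ^ 2) := by
    rw [av_coe]
    apply avR_mono
    intro t
    refine (aa_le n hn p t).trans (le_of_eq ?_)
    ring
  rw [avR_add, avR_mul_left] at h2
  have h4 : avR (fun _ : ZMod m => (ka m n : ℝ)) = ka m n := by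
    unfold avR
    rw [Finset.sum_const, Finset.card_univ, nsmul_eq_mul, ← mul_assoc]
    have : (Fintype.card (ZMod m) : ℝ) ≠ 0 := by exact_mod_cast Fintype.card_ne_zero
    rw [inv_mul_cancel₀ this, one_mul]
  rw [h4] at h2
  have h5 : (0 : ℝ) ≤ ka m n := by positivity
  nlinarith

lemma log_small (ε : ℝ) (hε : 0 < ε) : ∃ N : ℕ, ∀ n : ℕ, N ≤ n → Real.log n ≤ ε * n := by
  have h1 := Real.isLittleO_log_id_atTop.def hε
  have h2 := tendsto_natCast_atTop_atTop (R := ℝ) |>.eventually h1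
  rw [Filter.eventually_atTop] at h2
  obtain ⟨N, hN⟩ := h2
  refine ⟨max N 1, fun n hn => ?_⟩
  have h3 := hN n (le_trans (le_max_left _ _) hn)
  simp only [id] at h3
  rw [Real.norm_eq_abs, Real.norm_eq_abs, abs_of_nonneg (by positivity : (0:ℝ) ≤ n)] at h3
  exact (le_abs_self _).trans h3

lemma up_mono {d d' : ℕ} (h : d' ≤ d) (hU : Up m d) : Up m d' :=
  fun k hk hkd => hU k hk (hkd.trans h)

lemma log_ka_ge (n : ℕ) (hn : 1 ≤ n) :
    -(1 / 2 * Real.log (576 * n)) ≤ Real.log (ka m n) := by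
  have h1 := one_le_ka (m := m) n hn
  have h2 : 1 ≤ (576 * (n : ℝ)) * (ka m n : ℝ) ^ 2 := by
    have h3 : 1 ≤ (24 * √(n : ℝ) * (ka m n : ℝ)) ^ 2 := one_le_pow₀ h1
    rw [mul_pow, mul_pow, Real.sq_sqrt (by positivity)] at h3
    linarith
  have hp := ka_pos (m := m) n hn
  have hn0 : (0 : ℝ) < n := by exact_mod_cast hn
  have h3 := Real.log_nonneg h2
  rw [Real.log_mul (by positivity) (by positivity), Real.log_pow] at h3
  push_cast at h3
  linarith

lemma log_ka_le {d : ℕ} (hU : Up m d) (n : ℕ) (hn : 1 ≤ n) (hnd : n ≤ d + 1) :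
    Real.log (ka m n) ≤ Real.log 6 - 1 / 2 * Real.log n := by
  have h1 := ka_sq_le hU n hn hnd
  have hp := ka_pos (m := m) n hn
  have hn0 : (0 : ℝ) < n := by exact_mod_cast hn
  have h3 := Real.log_le_log (by positivity) h1
  rw [Real.log_mul (by positivity) (by positivity), Real.log_pow] at h3
  have h4 : Real.log 36 = 2 * Real.log 6 := by
    rw [← Real.log_rpow (by norm_num)]
    norm_num
  rw [h4] at h3
  push_cast at h3
  linarith

/-- **Fact 1.** -/
theorem fact_one : ∃ e₀ : ℕ, ∀ e : ℕ, e₀ ≤ e → ∀ m : ℕ, ∀ [NeZero m], Up m (e + 1) →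
    ∀ p : ZMod m, ((av (fun t : ZMod m => aa m e p t) : ℝ≥0) : ℝ) ≤
      Real.exp (-(1 / 256) + (1 + 2 / ((e : ℝ) + 1)) * Real.log (ka m (e + 2))) := by
  obtain ⟨N, hN⟩ := log_small (1 / 1000) (by norm_num)
  refine ⟨max N 20000, fun e he m _ hU p => ?_⟩
  have he2 : 20000 ≤ e := le_trans (le_max_right _ _) he
  have heN : N ≤ e := le_trans (le_max_left _ _) he
  have heR : (20000 : ℝ) ≤ e := by exact_mod_cast he2
  have h1 := av_aa_le (m := m) (up_mono (by omega) hU) e (by omega) p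
  refine h1.trans ?_
  have hk := ka_pos (m := m) e (by omega)
  have h2 : (1 - 3 / 256 : ℝ) ≤ Real.exp (-(3 / 256)) := by
    have := Real.add_one_le_exp (-(3 / 256) : ℝ)
    linarith
  have h3 : (1 - 3 / 256) * (ka m e : ℝ) ≤ Real.exp (-(3 / 256) + Real.log (ka m e)) := by
    rw [Real.exp_add, Real.exp_log hk]
    exact mul_le_mul_of_nonneg_right h2 hk.le
  refine h3.trans (Real.exp_le_exp.mpr ?_)
  have h4 := dk_le hU e (by omega) (by omega)
  have h5 := dk_le hU (e + 1) (by omega) (by omega)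
  unfold dk at h4 h5
  have h6 := log_ka_ge (m := m) (e + 2) (by omega)
  set L := Real.log (ka m (e + 2)) with hL
  have h7 : 12 / (e : ℝ) ≤ 1 / 1000 := by
    rw [div_le_div_iff₀ (by positivity) (by norm_num)]
    linarith
  have h8 : 12 / ((e + 1 : ℕ) : ℝ) ≤ 1 / 1000 := by
    push_cast
    rw [div_le_div_iff₀ (by positivity) (by norm_num)]
    linarith
  have h9 : Real.log (576 * ((e + 2 : ℕ) : ℝ)) ≤ 7 + 1 / 1000 * (e + 2) := by
    rw [Real.log_mul (by norm_num) (by positivity)]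
    have a1 := hN (e + 2) (by omega)
    have a2 : Real.log 576 ≤ 7 := by
      rw [Real.log_le_iff_le_exp (by norm_num)]
      have a3 : Real.exp 7 = Real.exp 1 ^ 7 := by
        rw [← Real.exp_nat_mul]; norm_num
      rw [a3]
      have a4 : (2.7 : ℝ) ^ 7 ≤ Real.exp 1 ^ 7 :=
        pow_le_pow_left₀ (by norm_num) (by linarith [Real.exp_one_gt_d9]) 7
      refine le_trans ?_ a4
      norm_num
    push_cast at a1 ⊢
    linarith
  have h10 : -(1 / 200) ≤ 2 / ((e : ℝ) + 1) * L := by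
    have b1 : -(7 + 1 / 1000 * ((e : ℝ) + 2)) ≤ 2 * L := by linarith
    rw [div_mul_eq_mul_div, le_div_iff₀ (by positivity)]
    linarith
  linarith

lemma ch_mul_ineq {C S c s : ℝ} (h1 : C ^ 2 + S ^ 2 = 1) (h2 : c ^ 2 + s ^ 2 = 1) :
    ((1 + C ^ 2) / 2) ^ 2 * (1 - 4 * s ^ 2) ≤
      (1 + (C * c - S * s) ^ 2) / 2 * ((1 + (C * c + S * s) ^ 2) / 2) := by
  have e1 : (1 + (C * c - S * s) ^ 2) * (1 + (C * c + S * s) ^ 2) =
      1 + 2 * (C ^ 2 * c ^ 2 + S ^ 2 * s ^ 2) + (C ^ 2 * c ^ 2 - S ^ 2 * s ^ 2) ^ 2 := by ring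
  have e2 : S ^ 2 = 1 - C ^ 2 := by linarith
  have e3 : c ^ 2 = 1 - s ^ 2 := by linarith
  have e4 : (1 + (C * c - S * s) ^ 2) / 2 * ((1 + (C * c + S * s) ^ 2) / 2) =
      (1 + 2 * (C ^ 2 * (1 - s ^ 2) + (1 - C ^ 2) * s ^ 2) +
        (C ^ 2 * (1 - s ^ 2) - (1 - C ^ 2) * s ^ 2) ^ 2) / 4 := by
    rw [← e2, ← e3, ← e1]; ring
  rw [e4]
  have h3 : 0 ≤ s ^ 2 * (2 - 6 * C ^ 2 + s ^ 2 + 4 * (1 + C ^ 2) ^ 2) := by
    apply mul_nonneg (sq_nonneg s)
    nlinarith [sq_nonneg s, sq_nonneg C, sq_nonneg (C ^ 2)]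
  nlinarith

lemma WQ_two_ge (p t y : ZMod m) :
    (WQ p y : ℝ) ^ 2 * (1 - 4 * ks t p ^ 2) ≤ WQ t y * WQ (p + p - t) y := by
  have h1 := normSq_ch (y - p)
  have h2 := normSq_ch (t - p)
  have h3 := ch_mul_ineq h1 h2
  have e1 : (WQ p y : ℝ) = (1 + (ch (y - p)).re ^ 2) / 2 := by
    rw [WQ_coe, kc_comm]
    rfl
  have e2 : ks t p = (ch (t - p)).im := rfl
  have e3 : (WQ t y : ℝ) = (1 + ((ch (y - p)).re * (ch (t - p)).re +
      (ch (y - p)).im * (ch (t - p)).im) ^ 2) / 2 := by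
    rw [WQ_coe, kc_comm]
    unfold kc
    have : y - t = (y - p) - (t - p) := by ring
    rw [this, ch_sub, Complex.mul_re, Complex.conj_re, Complex.conj_im]
    ring
  have e4 : (WQ (p + p - t) y : ℝ) = (1 + ((ch (y - p)).re * (ch (t - p)).re -
      (ch (y - p)).im * (ch (t - p)).im) ^ 2) / 2 := by
    rw [WQ_coe, kc_comm]
    unfold kc
    have : y - (p + p - t) = (y - p) + (t - p) := by ring
    rw [this, ch_add, Complex.mul_re]
  rw [e1, e2, e3, e4]
  linarith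

/-- The maximal value. -/
lemma N_two_le (n : ℕ) (p t : ZMod m) :
    N (WQ : ZMod m → ZMod m → ℝ≥0) n (fun y => WQ p y * WQ t y) ≤
      N (WQ : ZMod m → ZMod m → ℝ≥0) n (fun y => WQ p y * WQ p y) := by
  have h1 := N_cs (W := (WQ : ZMod m → ZMod m → ℝ≥0)) n (fun y => WQ p y * WQ p y)
    (fun y => WQ t y * WQ t y) (fun y => WQ p y * WQ t y) (fun y => le_of_eq (by ring))
  have h2 : N (WQ : ZMod m → ZMod m → ℝ≥0) n (fun y => WQ t y * WQ t y) =
      N (WQ : ZMod m → ZMod m → ℝ≥0) n (fun y => WQ p y * WQ p y) := by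
    rw [← N_equiv (Equiv.addRight (p - t)) (fun a b => WQ_add _ _ _) n
      (fun y => WQ p y * WQ p y)]
    congr 1
    funext y
    rw [Equiv.coe_addRight]
    dsimp only
    have := WQ_add (p - t) t y
    rw [add_sub_cancel] at this
    rw [this]
  rw [h2, ← pow_two] at h1
  exact (pow_le_pow_iff_left₀ (zero_le) (zero_le) two_ne_zero).mp h1

lemma N_two_ge (n : ℕ) (p t : ZMod m) (ht : ks t p ^ 2 ≤ 1 / (8 * ((n : ℝ) + 1))) :
    1 / 2 * (N (WQ : ZMod m → ZMod m → ℝ≥0) n (fun y => WQ p y * WQ p y) : ℝ) ≤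
      (N (WQ : ZMod m → ZMod m → ℝ≥0) n (fun y => WQ p y * WQ t y) : ℝ) := by
  have hc0 : 0 ≤ 1 - 1 / (2 * ((n : ℝ) + 1)) := by
    rw [sub_nonneg, div_le_one (by positivity)]
    have : (0 : ℝ) ≤ n := by positivity
    linarith
  set c : ℝ≥0 := ⟨1 - 1 / (2 * ((n : ℝ) + 1)), hc0⟩ with hc
  have hcR : (c : ℝ) = 1 - 1 / (2 * ((n : ℝ) + 1)) := rfl
  have hcs : (c : ℝ) ^ 2 ≤ 1 - 4 * ks t p ^ 2 := by
    rw [hcR]
    have h1 : 0 ≤ 1 / (2 * ((n : ℝ) + 1)) := by positivity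
    have h2 : 1 / (2 * ((n : ℝ) + 1)) = 4 * (1 / (8 * ((n : ℝ) + 1))) := by field_simp; norm_num
    nlinarith
  have h1 := N_cs (W := (WQ : ZMod m → ZMod m → ℝ≥0)) n (fun y => WQ p y * WQ t y)
    (fun y => WQ p y * WQ (p + p - t) y) (fun y => c * (WQ p y * WQ p y)) (by
      intro y
      rw [← NNReal.coe_le_coe]
      push_cast
      have h2 := WQ_two_ge p t y
      have h3 : 0 ≤ (WQ p y : ℝ) ^ 2 := by positivity
      have h4 : (WQ p y : ℝ) ^ 2 * (c : ℝ) ^ 2 ≤ WQ t y * WQ (p + p - t) y :=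
        (mul_le_mul_of_nonneg_left hcs h3).trans h2
      calc ((c : ℝ) * (WQ p y * WQ p y)) ^ 2 = (WQ p y : ℝ) ^ 2 * ((WQ p y : ℝ) ^ 2 * (c : ℝ) ^ 2) := by
            ring
        _ ≤ (WQ p y : ℝ) ^ 2 * (WQ t y * WQ (p + p - t) y) := mul_le_mul_of_nonneg_left h4 h3
        _ = _ := by ring)
  have h2 : N (WQ : ZMod m → ZMod m → ℝ≥0) n (fun y => WQ p y * WQ (p + p - t) y) =
      N (WQ : ZMod m → ZMod m → ℝ≥0) n (fun y => WQ p y * WQ t y) := by
    rw [← N_equiv (Equiv.subLeft (p + p)) (fun a b => WQ_refl _ _ _) n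
      (fun y => WQ p y * WQ t y)]
    congr 1
    funext y
    rw [Equiv.subLeft_apply]
    have a1 := WQ_refl (p + p) p y
    have a2 := WQ_refl (p + p) (p + p - t) y
    have a3 : p + p - p = p := by ring
    have a4 : p + p - (p + p - t) = t := by ring
    rw [a3] at a1
    rw [a4] at a2
    rw [a1, a2]
  rw [h2, ← pow_two, N_smul] at h1
  have h3 : c ^ n * N (WQ : ZMod m → ZMod m → ℝ≥0) n (fun y => WQ p y * WQ p y) ≤
      N (WQ : ZMod m → ZMod m → ℝ≥0) n (fun y => WQ p y * WQ t y) :=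
    (pow_le_pow_iff_left₀ (zero_le) (zero_le) two_ne_zero).mp h1
  have h4 : (c : ℝ) ^ n * (N (WQ : ZMod m → ZMod m → ℝ≥0) n (fun y => WQ p y * WQ p y) : ℝ) ≤
      (N (WQ : ZMod m → ZMod m → ℝ≥0) n (fun y => WQ p y * WQ t y) : ℝ) := by exact_mod_cast h3
  refine le_trans ?_ h4
  apply mul_le_mul_of_nonneg_right _ (by positivity)
  have h5 := one_add_mul_le_pow (a := -(1 / (2 * ((n : ℝ) + 1)))) (by
    have : 1 / (2 * ((n : ℝ) + 1)) ≤ 1 := by
      rw [div_le_one (by positivity)]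
      have : (0 : ℝ) ≤ n := by positivity
      linarith
    linarith) n
  have h6 : (n : ℝ) * -(1 / (2 * ((n : ℝ) + 1))) ≥ -(1 / 2) := by
    rw [mul_neg, mul_one_div, ge_iff_le, neg_le_neg_iff, div_le_div_iff₀ (by positivity) (by norm_num)]
    linarith
  rw [hcR, sub_eq_add_neg]
  linarith

lemma Zm_eq (n : ℕ) (p : ZMod m) :
    Zm (WQ : ZMod m → ZMod m → ℝ≥0) n (fun _ => 1) =
      av (fun t : ZMod m => N (WQ : ZMod m → ZMod m → ℝ≥0) n (fun y => WQ p y * WQ t y)) := by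
  unfold Zm
  have h1 : ∀ x : ZMod m, (av fun y : ZMod m => (1 : ℝ≥0) * 1 *
      N (WQ : ZMod m → ZMod m → ℝ≥0) n (fun z => 1 * WQ x z * WQ y z)) =
      av (fun t : ZMod m => N (WQ : ZMod m → ZMod m → ℝ≥0) n (fun y => WQ p y * WQ t y)) := by
    intro x
    rw [← av_equiv (Equiv.addRight (p - x)) (fun t : ZMod m =>
      N (WQ : ZMod m → ZMod m → ℝ≥0) n (fun y => WQ p y * WQ t y))]
    apply av_congr
    intro t
    rw [one_mul, one_mul, ← N_equiv (Equiv.addRight (p - x)) (fun a b => WQ_add _ _ _) n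
      (fun y => WQ p y * WQ (Equiv.addRight (p - x) t) y)]
    congr 1
    funext y
    simp only [Equiv.coe_addRight, one_mul]
    have a1 := WQ_add (p - x) x y
    have a2 := WQ_add (p - x) t y
    rw [add_sub_cancel] at a1
    rw [a1, a2]
  rw [av_congr h1, av_const]

/-- **Fact 2.** -/
theorem fact_two : ∃ e₀ : ℕ, ∀ e : ℕ, e₀ ≤ e → ∀ m : ℕ, ∀ [NeZero m], Up m (e + 1) →
    ∀ p : ZMod m, ((av (fun t : ZMod m => aa m e p t ^ (e + 1)) : ℝ≥0) : ℝ) ≤
      Real.exp (-(Real.log ((e : ℝ) + 1) / (4 * ((e : ℝ) + 1))) +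
        ((e : ℝ) + 3) * Real.log (ka m (e + 2))) := by
  obtain ⟨N', hN'⟩ := exists_nat_ge (Real.exp 170)
  refine ⟨max N' 2, fun e he m _ hU p => ?_⟩
  have he2 : 2 ≤ e := le_trans (le_max_right _ _) he
  have heN : N' ≤ e := le_trans (le_max_left _ _) he
  have heR : (2 : ℝ) ≤ e := by exact_mod_cast he2
  have hlog : 170 ≤ Real.log ((e : ℝ) + 1) := by
    rw [Real.le_log_iff_exp_le (by positivity)]
    have : (N' : ℝ) ≤ e := by exact_mod_cast heN
    linarith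
  set Am : ℝ≥0 := N (WQ : ZMod m → ZMod m → ℝ≥0) e (fun y => WQ p y * WQ p y) with hAm
  set am : ℝ≥0 := nm (WQ : ZMod m → ZMod m → ℝ≥0) e (fun y => WQ p y * WQ p y) with ham'
  have hpow : am ^ e = Am := nm_pow (by omega) _
  set Zv : ℝ≥0 := Zm (WQ : ZMod m → ZMod m → ℝ≥0) e (fun _ => 1) with hZv
  have hk1 := ka_pos (m := m) (e + 1) (by omega)
  have hk2 := ka_pos (m := m) (e + 2) (by omega)
  set L := Real.log (ka m (e + 2)) with hL
  have hkL : (ka m (e + 2) : ℝ) = Real.exp L := (Real.exp_log hk2).symm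
  -- (4)
  have h4 : (Zv : ℝ) ≤ Real.exp (((e : ℝ) + 2) * L + 24 / ((e : ℝ) + 1)) := by
    have a1 := Zm_le (isPos_WQ (m := m)) e (fun _ => 1)
    have a2 : (Zv : ℝ) ≤ (ka m (e + 2) : ℝ) ^ e * (ka m (e + 1) : ℝ) ^ 2 := by exact_mod_cast a1
    have a3 := dk_le hU (e + 1) (by omega) (by omega)
    unfold dk at a3
    have e1 : Real.log (ka m (e + 1 + 1)) = L := rfl
    rw [e1] at a3
    push_cast at a3
    have a4 : (ka m (e + 1) : ℝ) ≤ Real.exp (L + 12 / ((e : ℝ) + 1)) := by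
      rw [← Real.exp_log hk1]
      exact Real.exp_le_exp.mpr (by linarith)
    refine a2.trans ?_
    rw [hkL]
    calc Real.exp L ^ e * (ka m (e + 1) : ℝ) ^ 2
        ≤ Real.exp L ^ e * Real.exp (L + 12 / ((e : ℝ) + 1)) ^ 2 :=
          mul_le_mul_of_nonneg_left (pow_le_pow_left₀ (by positivity) a4 2) (by positivity)
      _ = _ := by
          rw [← Real.exp_nat_mul, ← Real.exp_nat_mul, ← Real.exp_add]
          congr 1
          push_cast
          ring
  have hZeq := Zm_eq (m := m) e p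
  -- (6)
  have h6 : (Am : ℝ) ≤ 36 * √((e : ℝ) + 1) * (Zv : ℝ) := by
    have hL1 : (1 : ℝ) ≤ 8 * ((e : ℝ) + 1) := by linarith
    have b1 := count_le' (m := m) hL1 p
    have b2 : 1 / 2 * (Am : ℝ) * avR (fun c : ZMod m =>
        if ks p c ^ 2 ≤ 1 / (8 * ((e : ℝ) + 1)) then (1 : ℝ) else 0) ≤ (Zv : ℝ) := by
      rw [← avR_mul_left, hZv, hZeq, av_coe]
      apply avR_mono
      intro t
      by_cases ht : ks p t ^ 2 ≤ 1 / (8 * ((e : ℝ) + 1))
      · rw [if_pos ht, mul_one]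
        rw [ks_sq_comm] at ht
        exact N_two_ge e p t ht
      · rw [if_neg ht, mul_zero]
        positivity
    have b3 : 1 / 2 * (Am : ℝ) * (1 / (2 * π * √(8 * ((e : ℝ) + 1)))) ≤ (Zv : ℝ) :=
      (mul_le_mul_of_nonneg_left b1 (by positivity)).trans b2
    have b4 : √(8 * ((e : ℝ) + 1)) = √8 * √((e : ℝ) + 1) := Real.sqrt_mul (by norm_num) _
    have b5 : √(8 : ℝ) ≤ 2.83 := by
      rw [Real.sqrt_le_left (by norm_num)]
      norm_num
    have b6 : 0 < √(8 : ℝ) := by positivity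
    have b7 : 0 < √((e : ℝ) + 1) := by positivity
    have b8 := Real.pi_pos
    have b9 := Real.pi_lt_d2
    have b10 : 1 / 2 * (Am : ℝ) * (1 / (2 * π * √(8 * ((e : ℝ) + 1)))) =
        (Am : ℝ) / (4 * π * √8 * √((e : ℝ) + 1)) := by
      rw [b4]; field_simp; ring
    rw [b10, div_le_iff₀ (by positivity)] at b3
    refine b3.trans ?_
    rw [mul_comm]
    apply mul_le_mul_of_nonneg_right _ (by positivity)
    apply mul_le_mul_of_nonneg_right _ b7.le
    nlinarith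
  -- (7)
  have hlk := log_ka_le hU (e + 2) (by omega) (by omega)
  rw [← hL] at hlk
  push_cast at hlk
  set ld := Real.log ((e : ℝ) + 1) with hld
  have hld2 : ld ≤ Real.log ((e : ℝ) + 2) := Real.log_le_log (by positivity) (by linarith)
  have h7 : (Am : ℝ) ≤ Real.exp (Real.log 36 + 1 / 2 * ld + (((e : ℝ) + 2) * L +
      24 / ((e : ℝ) + 1))) := by
    refine h6.trans ?_
    rw [Real.exp_add, Real.exp_add, Real.exp_log (by norm_num)]
    have c1 : √((e : ℝ) + 1) = Real.exp (1 / 2 * ld) := by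
      rw [Real.sqrt_eq_rpow, Real.rpow_def_of_pos (by positivity)]
      congr 1
      rw [hld]; ring
    rw [c1]
    exact mul_le_mul_of_nonneg_left h4 (by positivity)
  set E1 := Real.log 36 + 1 / 2 * ld + (((e : ℝ) + 2) * L + 24 / ((e : ℝ) + 1)) with hE1
  have h8 : (am : ℝ) ≤ Real.exp (E1 / e) := by
    have c1 : (am : ℝ) ^ e ≤ Real.exp (E1 / e) ^ e := by
      rw [← Real.exp_nat_mul, mul_div_cancel₀ _ (by positivity)]
      have : ((am : ℝ)) ^ e = (Am : ℝ) := by exact_mod_cast hpow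
      rw [this]
      exact h7
    exact (pow_le_pow_iff_left₀ (by positivity) (by positivity) (by omega)).mp c1
  -- (3)
  have h3 : av (fun t : ZMod m => aa m e p t ^ (e + 1)) ≤ am * Zv := by
    rw [hZv, hZeq, ← av_mul_left]
    apply av_mono
    intro t
    have c1 : aa m e p t ≤ am := by
      unfold aa
      rw [ham']
      unfold nm
      exact NNReal.rpow_le_rpow (N_two_le e p t) (by positivity)
    have c2 : aa m e p t ^ e = N (WQ : ZMod m → ZMod m → ℝ≥0) e (fun y => WQ p y * WQ t y) :=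
      nm_pow (by omega) _
    rw [pow_succ', c2]
    exact mul_le_mul_left c1 _
  have h9 : ((av (fun t : ZMod m => aa m e p t ^ (e + 1)) : ℝ≥0) : ℝ) ≤
      Real.exp (E1 / e) * Real.exp (((e : ℝ) + 2) * L + 24 / ((e : ℝ) + 1)) := by
    have c1 : ((av (fun t : ZMod m => aa m e p t ^ (e + 1)) : ℝ≥0) : ℝ) ≤ am * Zv := by
      exact_mod_cast h3
    exact c1.trans (mul_le_mul h8 h4 (by positivity) (by positivity))
  refine h9.trans ?_
  rw [← Real.exp_add]
  apply Real.exp_le_exp.mpr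
  -- final computation
  have l36 : Real.log 36 ≤ 4 := by
    rw [Real.log_le_iff_le_exp (by norm_num)]
    have a3 : Real.exp 4 = Real.exp 1 ^ 4 := by
      rw [← Real.exp_nat_mul]; norm_num
    rw [a3]
    have a4 : (2.7 : ℝ) ^ 4 ≤ Real.exp 1 ^ 4 :=
      pow_le_pow_left₀ (by norm_num) (by linarith [Real.exp_one_gt_d9]) 4
    refine le_trans ?_ a4
    norm_num
  have l6 : Real.log 6 ≤ 2 := by
    rw [Real.log_le_iff_le_exp (by norm_num)]
    have a3 : Real.exp 2 = Real.exp 1 ^ 2 := by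
      rw [← Real.exp_nat_mul]; norm_num
    rw [a3]
    have a4 : (2.7 : ℝ) ^ 2 ≤ Real.exp 1 ^ 2 :=
      pow_le_pow_left₀ (by norm_num) (by linarith [Real.exp_one_gt_d9]) 2
    refine le_trans ?_ a4
    norm_num
  have he0 : (0 : ℝ) < e := by linarith
  have hd0 : (0 : ℝ) < (e : ℝ) + 1 := by linarith
  have hx : 24 / ((e : ℝ) + 1) ≤ 8 := by
    rw [div_le_iff₀ hd0]; linarith
  have e5 : E1 / e = L + (Real.log 36 + 1 / 2 * ld + 2 * L + 24 / ((e : ℝ) + 1)) / e := by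
    rw [hE1]; field_simp; ring
  rw [e5]
  have h10 : (Real.log 36 + 1 / 2 * ld + 2 * L + 24 / ((e : ℝ) + 1)) / e ≤
      (16 - 1 / 2 * ld) / ((e : ℝ) + 1) := by
    have c1 : Real.log 36 + 1 / 2 * ld + 2 * L + 24 / ((e : ℝ) + 1) ≤ 16 - 1 / 2 * ld := by
      linarith
    have c2 : 16 - 1 / 2 * ld ≤ 0 := by linarith
    refine (div_le_div_of_nonneg_right c1 he0.le).trans ?_
    rw [div_le_div_iff₀ he0 hd0]
    nlinarith
  have h11 : (16 - 1 / 2 * ld) / ((e : ℝ) + 1) + 24 / ((e : ℝ) + 1) ≤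
      -(ld / (4 * ((e : ℝ) + 1))) := by
    rw [← add_div, ← neg_div, div_le_div_iff₀ hd0 (by positivity)]
    nlinarith
  linarith

end Pool.Agent.MP_a3e05c_co
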