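import Pool.Agent.Lib.MP_a3e05c_co.Bound

set_option autoImplicit false

/-! Pinning sequences: the interface between the analytic and the combinatorial part of the
strengthened clique theorem. -/

namespace Pool.Agent.MP_a3e05c_co

open scoped NNReal
open Finset

section

variable {V : Type*} [Fintype V] [DecidableEq V] (G : SimpleGraph V) [DecidableRel G.Adj]

/-- The number of neighbours of `z` outside `D` with exactly one neighbour in `D`. -/
def onceN (D : Finset V) (z : V) : ℕ :=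
  (univ.filter fun v => G.Adj z v ∧ v ∉ D ∧ degIn G D v = 1).card

/-- The number of neighbours of `z` outside `D` with at least two neighbours in `D`. -/
def multiN (D : Finset V) (z : V) : ℕ :=
  (univ.filter fun v => G.Adj z v ∧ v ∉ D ∧ 2 ≤ degIn G D v).card

/-- The number of neighbours of `z` outside `D` with no neighbour in `D`. -/
def freshN (D : Finset V) (z : V) : ℕ :=
  (univ.filter fun v => G.Adj z v ∧ v ∉ D ∧ degIn G D v = 0).card

/-- `Gain G c C d D s`: the set `D` is the result of a pinning sequence of total gain at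
least `s`.  (`degIn G D z` is the number of neighbours of `z` in `D`.) -/
inductive Gain (c C : ℝ) (d : ℕ) : Finset V → ℝ → Prop
  | empty : Gain c C d ∅ 0
  | weaken {D : Finset V} {s s' : ℝ} : Gain c C d D s → s' ≤ s → Gain c C d D s'
  | good {D : Finset V} {s : ℝ} {z : V} : Gain c C d D s → z ∉ D → degIn G D z = 0 →
      1 ≤ onceN G D z → 2 * multiN G D z ≤ d → Gain c C d (insert z D) (s + c * Real.log d / d)
  | great {D : Finset V} {s : ℝ} {z : V} : Gain c C d D s → z ∉ D → degIn G D z = 0 →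
      1 ≤ onceN G D z → Gain c C d (insert z D) (s + c * freshN G D z / d)
  | step {D : Finset V} {s : ℝ} {z : V} : Gain c C d D s → z ∉ D →
      Gain c C d (insert z D) (s - C * degIn G D z * Real.log d / d)

variable {G}

lemma Gain.neutral {c C : ℝ} {d : ℕ} {D : Finset V} {s : ℝ} {z : V} (h : Gain G c C d D s)
    (hz : z ∉ D) (h0 : degIn G D z = 0) : Gain G c C d (insert z D) s := by
  have := Gain.step h hz
  rw [h0] at this
  simpa using this

end

/-- ANALYTIC PART (statement): a pinning sequence of gain `s` bounds the partition function. -/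
def AnalyticPart : Prop :=
  ∃ c C : ℝ, 0 < c ∧ 0 < C ∧ ∃ d₀ : ℕ, ∀ d : ℕ, d₀ ≤ d → ∃ M : ℕ, ∀ m : ℕ, M ≤ m → ∀ [NeZero m],
    ∀ (V : Type) [Fintype V] [DecidableEq V] [LinearOrder V] (G : SimpleGraph V)
      [DecidableRel G.Adj], (∀ v, G.degree v = d) → ∀ (D : Finset V) (s : ℝ), Gain G c C d D s →
      (hom G (WQ : ZMod m → ZMod m → ℝ≥0) univ (fun _ _ => 1) : ℝ) ≤
        Real.exp (-s) * (NQ m (d + 1) : ℝ) ^ ((Fintype.card V : ℝ) / (d + 1))

/-- COMBINATORIAL PART (statement): in a `d`-regular graph without a component `K_{d+1}`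
there is a pinning sequence with gain at least `A n / d²`. -/
def CombPart : Prop :=
  ∀ c C A : ℝ, 0 < c → 0 < C → 0 < A → ∃ d₀ : ℕ, ∀ d : ℕ, d₀ ≤ d →
    ∀ (V : Type) [Fintype V] [DecidableEq V] (G : SimpleGraph V) [DecidableRel G.Adj],
      (∀ v, G.degree v = d) → (∀ S : Finset V, S.card = d + 1 → ¬ G.IsClique (S : Set V)) →
      ∃ (D : Finset V) (s : ℝ), Gain G c C d D s ∧ A * Fintype.card V / (d : ℝ) ^ 2 ≤ s

/-- THEOREM Q (statement). -/
def TheoremQ : Prop :=
  ∀ A : ℝ, 0 < A → ∃ d₀ : ℕ, ∀ d : ℕ, d₀ ≤ d → ∃ M : ℕ, ∀ m : ℕ, M ≤ m → ∀ [NeZero m],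
    ∀ (V : Type) [Fintype V] [DecidableEq V] [LinearOrder V] (G : SimpleGraph V)
      [DecidableRel G.Adj], (∀ v, G.degree v = d) →
      (∀ S : Finset V, S.card = d + 1 → ¬ G.IsClique (S : Set V)) →
      (hom G (WQ : ZMod m → ZMod m → ℝ≥0) univ (fun _ _ => 1) : ℝ) ≤
        Real.exp (-(A * Fintype.card V / (d : ℝ) ^ 2)) *
          (NQ m (d + 1) : ℝ) ^ ((Fintype.card V : ℝ) / (d + 1))

theorem theoremQ_of (h1 : AnalyticPart) (h2 : CombPart) : TheoremQ := by
  intro A hA
  obtain ⟨c, C, hc, hC, d₁, h1⟩ := h1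
  obtain ⟨d₂, h2⟩ := h2 c C A hc hC hA
  refine ⟨max d₁ d₂, fun d hd => ?_⟩
  obtain ⟨M, hM⟩ := h1 d (le_trans (le_max_left _ _) hd)
  refine ⟨M, fun m hm _ V _ _ _ G _ hG hK => ?_⟩
  obtain ⟨D, s, hs, hAs⟩ := h2 d (le_trans (le_max_right _ _) hd) V G hG hK
  refine (hM m hm V G hG D s hs).trans ?_
  apply mul_le_mul_of_nonneg_right _ (by positivity)
  exact Real.exp_le_exp.mpr (by linarith)

end Pool.Agent.MP_a3e05c_co
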