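import Pool.Agent.Lib.MP_a3e05c_co.Q.Pin
import Pool.Agent.Lib.MP_a3e05c_co.Energy

set_option autoImplicit false
set_option linter.unusedSectionVars false

/-! Homogeneous kernels, and the kernel `WQ` on `ZMod m`: symmetries, upper and lower bounds for
the norms. -/

namespace Pool.Agent.MP_a3e05c_co

open scoped NNReal
open Finset

section general

variable {X : Type*} [Fintype X] {W : X → X → ℝ≥0}

lemma av_equiv (e : X ≃ X) (f : X → ℝ≥0) : av (fun x => f (e x)) = av f := by
  unfold av
  rw [Equiv.sum_comp e f]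

lemma N_equiv (e : X ≃ X) (he : ∀ x y, W (e x) (e y) = W x y) (n : ℕ) : ∀ f : X → ℝ≥0,
    N W n (fun y => f (e y)) = N W n f := by
  induction n with
  | zero => intro f; rfl
  | succ n ih =>
    intro f
    rw [N_succ, N_succ, ← av_equiv e (fun x => f x * N W n (fun y => f y * W x y))]
    apply av_congr
    intro x
    congr 1
    rw [← ih (fun y => f y * W (e x) y)]
    congr 1
    funext y
    rw [he]

lemma nm_equiv (e : X ≃ X) (he : ∀ x y, W (e x) (e y) = W x y) (n : ℕ) (f : X → ℝ≥0) :
    nm W n (fun y => f (e y)) = nm W n f := by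
  unfold nm
  rw [N_equiv e he]

lemma nm_smul {n : ℕ} (hn : n ≠ 0) (c : ℝ≥0) (f : X → ℝ≥0) :
    nm W n (fun x => c * f x) = c * nm W n f := by
  unfold nm
  have : (n : ℝ) ≠ 0 := by exact_mod_cast hn
  rw [N_smul, NNReal.mul_rpow, ← NNReal.rpow_natCast, ← NNReal.rpow_mul, mul_one_div_cancel this,
    NNReal.rpow_one]

/-- Averaging a product functional. -/
lemma N_avg_le {Y : Type*} [Fintype Y] (K : ℝ≥0) (n : ℕ) :
    ∀ (w : Y → ℝ≥0) (g : Y → X → ℝ≥0) (f : X → ℝ≥0),
      (∀ y : Fin n → X, av (fun t => w t * ∏ i, g t (y i)) ≤ K) →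
      av (fun t => w t * N W n (fun x => g t x * f x)) ≤ K * N W n f := by
  induction n with
  | zero =>
    intro w g f h
    have := h (fun i => i.elim0)
    simp only [N_zero, mul_one] at this ⊢
    simpa using this
  | succ n ih =>
    intro w g f h
    have h1 : av (fun t => w t * N W (n + 1) (fun x => g t x * f x)) =
        av (fun y => f y * av (fun t => (w t * g t y) *
          N W n (fun x => g t x * (f x * W y x)))) := by
      have h2 : ∀ t, w t * N W (n + 1) (fun x => g t x * f x) =
          av (fun y => f y * ((w t * g t y) * N W n (fun x => g t x * (f x * W y x)))) := by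
        intro t
        rw [N_succ, ← av_mul_left]
        apply av_congr
        intro y
        have h3 : (fun x => g t x * f x * W y x) = fun x => g t x * (f x * W y x) := by
          funext x; ring
        rw [h3]
        ring
      simp_rw [h2]
      rw [av_comm]
      apply av_congr
      intro y
      rw [av_mul_left]
    rw [h1, N_succ, ← av_mul_left]
    apply av_mono
    intro y
    rw [mul_left_comm]
    apply mul_le_mul_right
    apply ih (fun t => w t * g t y) g (fun x => f x * W y x)
    intro z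
    have h4 := h (Fin.cons y z)
    simp only [Fin.prod_univ_succ, Fin.cons_zero, Fin.cons_succ] at h4
    refine le_trans (le_of_eq ?_) h4
    apply av_congr
    intro t
    ring

/-- A lower bound for the clique functional of a function supported on a set of small diameter. -/
lemma N_ge_supp (n : ℕ) (w : ℝ≥0) (hw1 : w ≤ 1) (S : Set X) (f : X → ℝ≥0)
    (hf : ∀ x, x ∉ S → f x = 0) (hw : ∀ x ∈ S, ∀ y ∈ S, w ≤ W x y) :
    av f ^ n * w ^ (n * n) ≤ N W n f := by
  induction n with
  | zero => simp [N_zero]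
  | succ n ih =>
    rw [N_succ]
    have h1 : ∀ x, f x * (w ^ n * N W n f) ≤ f x * N W n (fun y => f y * W x y) := by
      intro x
      by_cases hx : x ∈ S
      · apply mul_le_mul_right
        rw [← N_smul]
        apply N_mono
        intro y
        by_cases hy : y ∈ S
        · rw [mul_comm]
          exact mul_le_mul_right (hw x hx y hy) _
        · rw [hf y hy]; simp
      · rw [hf x hx]; simp
    refine le_trans ?_ (av_mono h1)
    rw [av_mul_right]
    calc av f ^ (n + 1) * w ^ ((n + 1) * (n + 1))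
        = av f * (av f ^ n * w ^ (n * n) * (w ^ n * w ^ (n + 1))) := by ring
      _ ≤ av f * (N W n f * (w ^ n * 1)) := by
          apply mul_le_mul_right
          apply mul_le_mul' ih
          apply mul_le_mul_right
          exact pow_le_one' hw1 _
      _ = _ := by ring

end general

section kernel

variable {m : ℕ} [NeZero m]

lemma WQ_coe' (x y : ZMod m) : ((WQ x y : ℝ≥0) : ℝ) = 1 - ks x y ^ 2 / 2 := by
  rw [WQ_coe]
  have := kc_sq_add_ks_sq x y
  linarith

lemma WQ_le_one (x y : ZMod m) : WQ x y ≤ 1 := by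
  rw [← NNReal.coe_le_coe, WQ_coe']
  push_cast
  nlinarith [sq_nonneg (ks x y)]

lemma WQ_add (s x y : ZMod m) : WQ (x + s) (y + s) = WQ x y := by
  apply NNReal.eq
  rw [WQ_coe, WQ_coe]
  unfold kc
  rw [add_sub_add_right_eq_sub]

lemma WQ_refl (s x y : ZMod m) : WQ (s - x) (s - y) = WQ x y := by
  apply NNReal.eq
  rw [WQ_coe, WQ_coe]
  unfold kc
  have : s - x - (s - y) = -(x - y) := by ring
  rw [this, ch_neg, Complex.conj_re]

lemma N_WQ_pin (n : ℕ) (p : ZMod m) :
    N (WQ : ZMod m → ZMod m → ℝ≥0) n (fun y => WQ p y) =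
      N (WQ : ZMod m → ZMod m → ℝ≥0) (n + 1) (fun _ => 1) := by
  rw [N_succ]
  have h1 : ∀ x : ZMod m, (1 : ℝ≥0) * N (WQ : ZMod m → ZMod m → ℝ≥0) n (fun y => 1 * WQ x y) =
      N (WQ : ZMod m → ZMod m → ℝ≥0) n (fun y => WQ p y) := by
    intro x
    rw [one_mul, ← N_equiv (Equiv.addRight (p - x)) (fun a b => WQ_add _ _ _) n
      (fun y => WQ p y)]
    congr 1
    funext y
    rw [one_mul, Equiv.coe_addRight]
    dsimp only
    have := WQ_add (p - x) x y
    rw [add_sub_cancel] at this
    exact this.symm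
  rw [av_congr h1, av_const]

/-- The norm of the constant one. -/
noncomputable def ka (m : ℕ) [NeZero m] (n : ℕ) : ℝ≥0 :=
  nm (WQ : ZMod m → ZMod m → ℝ≥0) n (fun _ => 1)

lemma ka_pow {n : ℕ} (hn : n ≠ 0) : ka m n ^ n = NQ m n := nm_pow hn _

lemma nm_pin_pow {n : ℕ} (hn : n ≠ 0) (p : ZMod m) :
    nm (WQ : ZMod m → ZMod m → ℝ≥0) n (fun y => WQ p y) ^ n = ka m (n + 1) ^ (n + 1) := by
  rw [nm_pow hn, N_WQ_pin, ka_pow (by omega)]
  rfl

lemma av_WQ_pow (k : ℕ) (y : ZMod m) :
    av (fun t : ZMod m => WQ t y ^ k) = av (fun t : ZMod m => WQ t 0 ^ k) := by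
  rw [← av_equiv (Equiv.addRight y) (fun t => WQ t y ^ k)]
  apply av_congr
  intro t
  rw [Equiv.coe_addRight]
  dsimp only
  have := WQ_add y t 0
  rw [zero_add] at this
  rw [this]

/-- The number of copies is extended by one. -/
lemma NQ_succ_le (n : ℕ) (hn : n ≠ 0) :
    NQ m (n + 1) ≤ av (fun t : ZMod m => WQ t 0 ^ n) * NQ m n := by
  have h := N_avg_le (W := (WQ : ZMod m → ZMod m → ℝ≥0)) (Y := ZMod m)
    (av (fun t : ZMod m => WQ t 0 ^ n)) n (fun _ => 1) (fun t x => WQ t x) (fun _ => 1) (by
    intro y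
    have h1 := holder_pin (X := ZMod m) (Finset.univ : Finset (Fin n)) (d := n) (k := 0)
      (Nat.pos_of_ne_zero hn) (by simp) (fun _ => 1) (fun i t => WQ t (y i))
    refine h1.trans (le_of_eq ?_)
    simp only [one_mul, CharP.cast_eq_zero, zero_div, NNReal.rpow_zero]
    simp_rw [av_WQ_pow]
    rw [Finset.prod_const, Finset.card_univ, Fintype.card_fin, ← NNReal.rpow_natCast,
      ← NNReal.rpow_mul, one_div_mul_cancel (by exact_mod_cast hn), NNReal.rpow_one])
  refine le_trans (le_of_eq ?_) h
  unfold NQ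
  rw [N_succ]
  apply av_congr
  intro t
  congr 2
  funext x
  ring

end kernel

end Pool.Agent.MP_a3e05c_co
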