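import Pool.Agent.Lib.MP_a3e05c_co.Q.Analytic
import Pool.Agent.Lib.MP_a3e05c_co.Q.Comb

set_option autoImplicit false

/-! Theorem Q: the strengthened clique theorem for regular graphs without a complete component. -/

namespace Pool.Agent.MP_a3e05c_co

/-- **Theorem Q.** -/
theorem theoremQ : TheoremQ := theoremQ_of analyticPart combPart

end Pool.Agent.MP_a3e05c_co
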