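import Pool.Agent.Lib.MP_a3e05c_co.Kernel

set_option autoImplicit false

/-! Norms attached to the clique functionals: monotonicity and logarithmic convexity in the number
of vertices. -/

namespace Pool.Agent.MP_a3e05c_co

open scoped NNReal
open Finset

variable {X : Type*} [Fintype X] {W : X → X → ℝ≥0}

/-- The norm attached to the clique functional. -/
noncomputable def nm (W : X → X → ℝ≥0) (n : ℕ) (f : X → ℝ≥0) : ℝ≥0 := N W n f ^ (1 / (n : ℝ))

lemma nm_pow {n : ℕ} (hn : n ≠ 0) (f : X → ℝ≥0) : nm W n f ^ n = N W n f := by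
  unfold nm
  have : (n : ℝ) ≠ 0 := by exact_mod_cast hn
  rw [← NNReal.rpow_natCast, ← NNReal.rpow_mul, one_div_mul_cancel this, NNReal.rpow_one]

lemma nm_one (f : X → ℝ≥0) : nm W 1 f = av f := by
  unfold nm
  rw [N_one, Nat.cast_one, div_one, NNReal.rpow_one]

lemma N_mono (n : ℕ) : ∀ f g : X → ℝ≥0, (∀ x, f x ≤ g x) → N W n f ≤ N W n g := by
  induction n with
  | zero => intro f g _; rw [N_zero, N_zero]
  | succ n ih =>
    intro f g h
    rw [N_succ, N_succ]
    apply av_mono
    intro x
    exact mul_le_mul' (h x) (ih _ _ fun y => mul_le_mul_left (h y) _)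

lemma N_smul (n : ℕ) (c : ℝ≥0) : ∀ f : X → ℝ≥0, N W n (fun x => c * f x) = c ^ n * N W n f := by
  induction n with
  | zero => intro f; rw [N_zero, N_zero, pow_zero, one_mul]
  | succ n ih =>
    intro f
    rw [N_succ, N_succ, ← av_mul_left]
    apply av_congr
    intro x
    have h1 : (fun y => c * f y * W x y) = fun y => c * (f y * W x y) := by
      funext y; ring
    rw [h1, ih]
    ring

lemma nm_mono {n : ℕ} {f g : X → ℝ≥0} (h : ∀ x, f x ≤ g x) : nm W n f ≤ nm W n g :=
  NNReal.rpow_le_rpow (N_mono n f g h) (by positivity)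

/-- A Cauchy-Schwarz inequality for the clique functional. -/
lemma N_cs (n : ℕ) : ∀ f g h : X → ℝ≥0, (∀ x, h x ^ 2 ≤ f x * g x) →
    N W n h ^ 2 ≤ N W n f * N W n g := by
  induction n with
  | zero => intro f g h _; simp [N_zero]
  | succ n ih =>
    intro f g h hh
    rw [N_succ, N_succ, N_succ]
    have key := av_cs (fun _ : X => (1 : ℝ≥0)) (fun x => h x * N W n (fun y => h y * W x y))
      (fun x => f x * N W n (fun y => f y * W x y)) (fun x => g x * N W n (fun y => g y * W x y))
      (by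
        intro x
        have h1 := ih (fun y => f y * W x y) (fun y => g y * W x y) (fun y => h y * W x y) (by
          intro y
          calc (h y * W x y) ^ 2 = h y ^ 2 * W x y ^ 2 := by ring
            _ ≤ (f y * g y) * W x y ^ 2 := mul_le_mul_left (hh y) _
            _ = _ := by ring)
        calc (h x * N W n (fun y => h y * W x y)) ^ 2 = h x ^ 2 * N W n (fun y => h y * W x y) ^ 2 := by
              ring
          _ ≤ (f x * g x) * (N W n (fun y => f y * W x y) * N W n (fun y => g y * W x y)) :=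
              mul_le_mul' (hh x) h1
          _ = _ := by ring)
    simpa only [one_mul] using key

lemma local_nm (hW : IsPos W) {a b : ℕ} (hb : 1 ≤ b) (hba : b ≤ a) (f g : X → ℝ≥0) :
    av (fun x => f x * nm W b (fun y => g y * W x y) ^ a) ≤
      nm W (a + 1) f * nm W (b + 1) g ^ a := by
  have h := local_ineq hW b a hb hba f g
  have e1 : ∀ x, f x * nm W b (fun y => g y * W x y) ^ a =
      f x * N W b (fun y => g y * W x y) ^ ((a : ℝ) / (b : ℝ)) := by
    intro x
    unfold nm
    rw [← NNReal.rpow_natCast, ← NNReal.rpow_mul]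
    congr 2
    ring
  rw [av_congr e1]
  refine h.trans (le_of_eq ?_)
  unfold nm
  rw [← NNReal.rpow_natCast _ a, ← NNReal.rpow_mul]
  congr 2
  · push_cast; rfl
  · push_cast; ring

/-- The norms decrease with the number of vertices. -/
lemma nm_succ_le (hW : IsPos W) (hW1 : ∀ x y, W x y ≤ 1) (n : ℕ) : ∀ f : X → ℝ≥0,
    nm W (n + 2) f ≤ nm W (n + 1) f := by
  induction n with
  | zero =>
    intro f
    simp only [zero_add]
    rw [nm_one]
    have h1 : N W 2 f ≤ av f ^ 2 := by
      rw [N_succ]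
      have h2 : ∀ x, f x * N W 1 (fun y => f y * W x y) ≤ f x * av f := by
        intro x
        apply mul_le_mul_right
        rw [N_one]
        apply av_mono
        intro y
        exact mul_le_of_le_one_right' (hW1 x y)
      refine (av_mono h2).trans ?_
      rw [av_mul_right, sq]
    have h3 : nm W 2 f ^ 2 ≤ av f ^ 2 := by
      rw [nm_pow two_ne_zero]; exact h1
    exact (pow_le_pow_iff_left₀ (zero_le) (zero_le) two_ne_zero).mp h3
  | succ n ih =>
    intro f
    have h1 : N W (n + 3) f ≤ nm W (n + 3) f * nm W (n + 2) f ^ (n + 2) := by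
      rw [N_succ]
      refine le_trans (av_mono fun x => ?_) (local_nm hW (a := n + 2) (b := n + 1) (by omega)
        (by omega) f f)
      apply mul_le_mul_right
      rw [← nm_pow (by omega : n + 2 ≠ 0)]
      exact pow_le_pow_left' (ih _) _
    rw [← nm_pow (by omega : n + 3 ≠ 0)] at h1
    by_cases h0 : nm W (n + 3) f = 0
    · show nm W (n + 3) f ≤ _
      rw [h0]; exact zero_le
    · have h2 : nm W (n + 3) f ^ (n + 2) ≤ nm W (n + 2) f ^ (n + 2) := by
        rw [pow_succ' (nm W (n + 3) f) (n + 2)] at h1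
        exact le_of_mul_le_mul_left h1 (pos_iff_ne_zero.mpr h0)
      exact (pow_le_pow_iff_left₀ (zero_le) (zero_le) (by omega)).mp h2

lemma nm_anti (hW : IsPos W) (hW1 : ∀ x y, W x y ≤ 1) {a b : ℕ} (ha : 1 ≤ a) (hab : a ≤ b)
    (f : X → ℝ≥0) : nm W b f ≤ nm W a f := by
  obtain ⟨k, rfl⟩ := Nat.exists_eq_add_of_le hab
  induction k with
  | zero => exact le_rfl
  | succ k ih =>
    obtain ⟨j, hj⟩ : ∃ j, a + k = j + 1 := ⟨a + k - 1, by omega⟩
    have h := nm_succ_le hW hW1 j f
    have e : a + (k + 1) = j + 2 := by omega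
    rw [e]
    refine h.trans ?_
    rw [← hj]
    exact ih (by omega)

/-- Two further vertices which are not joined to each other. -/
noncomputable def Zm (W : X → X → ℝ≥0) (n : ℕ) (f : X → ℝ≥0) : ℝ≥0 :=
  av fun x => av fun y => f x * f y * N W n (fun z => f z * W x z * W y z)

lemma Zm_zero (f : X → ℝ≥0) : Zm W 0 f = av f ^ 2 := by
  unfold Zm
  simp only [N_zero, mul_one]
  simp_rw [av_mul_left]
  rw [av_mul_right, sq]

lemma Zm_succ (hW : IsPos W) (n : ℕ) (f : X → ℝ≥0) :
    Zm W (n + 1) f = av fun t => f t * Zm W n (fun y => f y * W t y) := by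
  unfold Zm
  have h1 : ∀ x y, f x * f y * N W (n + 1) (fun z => f z * W x z * W y z) =
      av fun t => f t * ((f x * W t x) * (f y * W t y) *
        N W n (fun z => f z * W t z * W x z * W y z)) := by
    intro x y
    rw [N_succ, ← av_mul_left]
    apply av_congr
    intro t
    have h2 : (fun z => f z * W x z * W y z * W t z) =
        (fun z => f z * W t z * W x z * W y z) := by
      funext z
      ring
    rw [h2, hW.symm t x, hW.symm t y]
    ring
  simp_rw [h1]
  rw [av_congr fun x => av_comm _]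
  rw [av_comm]
  apply av_congr
  intro t
  rw [← av_mul_left]
  apply av_congr
  intro x
  rw [← av_mul_left]

lemma N_sq_le (hW : IsPos W) (n : ℕ) : ∀ f : X → ℝ≥0,
    N W (n + 1) f ^ 2 ≤ N W n f * Zm W n f := by
  induction n with
  | zero =>
    intro f
    rw [Zm_zero, N_zero, one_mul, zero_add, N_one]
  | succ n ih =>
    intro f
    rw [Zm_succ hW, N_succ (n + 1), N_succ n]
    apply av_cs
    intro t
    exact ih _

/-- The clique theorem for a complete graph minus one edge. -/
lemma Zm_le (hW : IsPos W) (n : ℕ) : ∀ f : X → ℝ≥0,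
    Zm W n f ≤ nm W (n + 2) f ^ n * nm W (n + 1) f ^ 2 := by
  induction n with
  | zero =>
    intro f
    rw [Zm_zero, pow_zero, one_mul, zero_add, nm_one]
  | succ n ih =>
    intro f
    have hn : ((n : ℝ) + 2) ≠ 0 := by positivity
    rw [Zm_succ hW]
    set A : X → ℝ≥0 := fun t => nm W (n + 2) (fun y => f y * W t y) ^ (n + 2) with hA
    set B' : X → ℝ≥0 := fun t => nm W (n + 1) (fun y => f y * W t y) ^ (n + 2) with hB
    have h1 : av (fun t => f t * Zm W n (fun y => f y * W t y)) ≤
        av (fun t => f t * (A t ^ ((n : ℝ) / (n + 2)) * B' t ^ ((2 : ℝ) / (n + 2)))) := by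
      apply av_mono
      intro t
      apply mul_le_mul_right
      refine (ih _).trans (le_of_eq ?_)
      simp only [hA, hB]
      rw [← NNReal.rpow_natCast _ (n + 2), ← NNReal.rpow_natCast _ (n + 2), ← NNReal.rpow_mul,
        ← NNReal.rpow_mul, ← NNReal.rpow_natCast _ n, ← NNReal.rpow_natCast _ 2]
      congr 2
      · push_cast; field_simp
      · push_cast; field_simp
    refine h1.trans ((holder2w (by positivity) (by positivity) (by field_simp) f A B').trans ?_)
    have h2 : av (fun t => f t * A t) ≤ nm W (n + 3) f * nm W (n + 3) f ^ (n + 2) :=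
      local_nm hW (a := n + 2) (b := n + 2) (by omega) le_rfl f f
    have h3 : av (fun t => f t * B' t) ≤ nm W (n + 3) f * nm W (n + 2) f ^ (n + 2) :=
      local_nm hW (a := n + 2) (b := n + 1) (by omega) (by omega) f f
    refine (mul_le_mul' (NNReal.rpow_le_rpow h2 (by positivity))
      (NNReal.rpow_le_rpow h3 (by positivity))).trans (le_of_eq ?_)
    set u := nm W (n + 3) f
    set v := nm W (n + 2) f
    rw [NNReal.mul_rpow, NNReal.mul_rpow]
    have e1 : (u ^ (n + 2)) ^ ((n : ℝ) / (n + 2)) = u ^ n := by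
      rw [← NNReal.rpow_natCast u (n + 2), ← NNReal.rpow_mul, ← NNReal.rpow_natCast u n]
      congr 1
      push_cast; field_simp
    have e2 : (v ^ (n + 2)) ^ ((2 : ℝ) / (n + 2)) = v ^ 2 := by
      rw [← NNReal.rpow_natCast v (n + 2), ← NNReal.rpow_mul, ← NNReal.rpow_natCast v 2]
      congr 1
      push_cast; field_simp
    have e3 : u ^ ((n : ℝ) / (n + 2)) * u ^ ((2 : ℝ) / (n + 2)) = u := by
      rw [← NNReal.rpow_add_of_nonneg _ (by positivity) (by positivity), ← add_div, div_self hn,
        NNReal.rpow_one]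
    rw [e1, e2]
    calc u ^ ((n : ℝ) / (n + 2)) * u ^ n * (u ^ ((2 : ℝ) / (n + 2)) * v ^ 2)
        = (u ^ ((n : ℝ) / (n + 2)) * u ^ ((2 : ℝ) / (n + 2))) * u ^ n * v ^ 2 := by ring
      _ = u ^ (n + 1) * v ^ 2 := by rw [e3]; ring

/-- The norms are logarithmically convex in the number of vertices. -/
lemma nm_logconvex (hW : IsPos W) (n : ℕ) (f : X → ℝ≥0) :
    nm W (n + 2) f ^ 2 ≤ nm W (n + 1) f * nm W (n + 3) f := by
  have h1 := N_sq_le hW (n + 1) f
  have h2 := Zm_le hW (n + 1) f
  rw [← nm_pow (by omega : n + 1 + 1 ≠ 0), ← nm_pow (by omega : n + 1 ≠ 0)] at h1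
  set u := nm W (n + 1) f
  set v := nm W (n + 2) f
  set w := nm W (n + 3) f
  by_cases h0 : v = 0
  · rw [h0]; simp
  · have h3 : (v ^ (n + 2)) ^ 2 ≤ u ^ (n + 1) * (w ^ (n + 1) * v ^ 2) :=
      h1.trans (mul_le_mul_right h2 _)
    have h4 : (v ^ 2) ^ (n + 1) * v ^ 2 ≤ (u * w) ^ (n + 1) * v ^ 2 := by
      calc (v ^ 2) ^ (n + 1) * v ^ 2 = (v ^ (n + 2)) ^ 2 := by ring
        _ ≤ _ := h3
        _ = _ := by ring
    have h5 := le_of_mul_le_mul_right h4 (pow_pos (pos_iff_ne_zero.mpr h0) 2)
    exact (pow_le_pow_iff_left₀ (zero_le) (zero_le) (by omega)).mp h5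

end Pool.Agent.MP_a3e05c_co
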