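import Pool.Agent.Lib.MP_a3e05c_co.Q.Norm

set_option autoImplicit false
set_option linter.unusedSectionVars false

/-! Pinning: the clique theorem with a set of pinned vertices, and the effect of adding a pin. -/

namespace Pool.Agent.MP_a3e05c_co

open scoped NNReal
open Finset

variable {X : Type*} [Fintype X] {W : X → X → ℝ≥0}
variable {V : Type*} [Fintype V] [DecidableEq V] [LinearOrder V] (G : SimpleGraph V)
  [DecidableRel G.Adj]

/-- The weight which the pins of `D` put on the vertex `v`. -/
noncomputable def Fp (W : X → X → ℝ≥0) (D : Finset V) (x : V → X) (v : V) : X → ℝ≥0 :=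
  fun y => ∏ p ∈ D, if G.Adj p v then W (x p) y else 1

lemma Fp_empty (x : V → X) (v : V) : Fp G W ∅ x v = fun _ => 1 := by
  unfold Fp
  funext y
  rw [Finset.prod_empty]

lemma Fp_insert {D : Finset V} {z : V} (hz : z ∉ D) (x : V → X) (t : X) (v : V) :
    Fp G W (insert z D) (Function.update x z t) v =
      fun y => if G.Adj z v then Fp G W D x v y * W t y else Fp G W D x v y := by
  funext y
  unfold Fp
  rw [Finset.prod_insert hz, Function.update_self]
  have h1 : (∏ p ∈ D, if G.Adj p v then W (Function.update x z t p) y else 1) =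
      ∏ p ∈ D, if G.Adj p v then W (x p) y else 1 := by
    apply Finset.prod_congr rfl
    intro p hp
    have hp' : p ≠ z := fun h => hz (h ▸ hp)
    rw [Function.update_of_ne hp']
  rw [h1]
  by_cases h : G.Adj z v
  · rw [if_pos h, if_pos h, mul_comm]
  · rw [if_neg h, if_neg h, one_mul]

lemma ham_insert' (hW : IsPos W) {D : Finset V} {z : V} (hz : z ∉ D) (x : V → X) (t : X) :
    ham G W (insert z D) (Function.update x z t) = Fp G W D x z t * ham G W D x := by
  rw [ham_insert G hW hz, ham_update G hz, Function.update_self]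
  congr 1
  unfold Fp
  apply Finset.prod_congr rfl
  intro p hp
  have hp' : p ≠ z := fun h => hz (h ▸ hp)
  rw [Function.update_of_ne hp']
  by_cases h : G.Adj z p
  · rw [if_pos h, if_pos h.symm, hW.symm]
  · rw [if_neg h, if_neg (fun h' => h h'.symm)]

lemma hom_split [Nonempty X] (hW : IsPos W) (D : Finset V) :
    hom G W univ (fun _ _ => 1) =
      av fun x : V → X => ham G W D x * hom G W Dᶜ (Fp G W D x) := by
  induction D using Finset.induction_on with
  | empty =>
    rw [Finset.compl_empty]
    have : ∀ x : V → X, ham G W ∅ x * hom G W univ (Fp G W ∅ x) =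
        hom G W univ (fun _ _ => 1) := by
      intro x
      have h1 : ham G W ∅ x = 1 := by
        unfold ham
        rw [Finset.prod_empty]
      have h2 : Fp G W ∅ x = fun _ _ => 1 := by
        funext v
        exact Fp_empty G x v
      rw [h1, h2, one_mul]
    rw [av_congr this, av_const]
  | insert z D hz ih =>
    rw [ih, av_update z (fun x : V → X => ham G W (insert z D) x *
      hom G W (insert z D)ᶜ (Fp G W (insert z D) x)), av_comm]
    apply av_congr
    intro x
    rw [← Finset.insert_compl_insert hz, hom_insert G hW (by simp), ← av_mul_left]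
    apply av_congr
    intro t
    rw [ham_insert' G hW hz]
    have h2 : Fp G W (insert z D) (Function.update x z t) =
        fun v y => if G.Adj z v then Fp G W D x v y * W t y else Fp G W D x v y := by
      funext v
      exact Fp_insert G hz x t v
    rw [h2]
    ring

/-- The pinned weight. -/
noncomputable def WD (W : X → X → ℝ≥0) (D : Finset V) (x : V → X) : ℝ≥0 :=
  ham G W D x * ∏ v ∈ Dᶜ, nm W (degIn G Dᶜ v + 1) (Fp G W D x v)

lemma hom_le_WD [Nonempty X] (hW : IsPos W) (D : Finset V) :
    hom G W univ (fun _ _ => 1) ≤ av (WD G W D) := by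
  rw [hom_split G hW D]
  apply av_mono
  intro x
  unfold WD
  apply mul_le_mul_right
  refine (clique_theorem G hW _ Dᶜ rfl _).trans (le_of_eq ?_)
  apply Finset.prod_congr rfl
  intro v _
  unfold nm
  push_cast
  rfl

/-- The neighbours of `z` outside `D`. -/
def outN (D : Finset V) (z : V) : Finset V := univ.filter fun v => G.Adj z v ∧ v ∉ D

lemma card_outN (D : Finset V) (z : V) : (outN G D z).card = degIn G Dᶜ z := by
  unfold outN degIn
  congr 1
  ext v
  simp [and_comm]

/-- Adding the pin `z` multiplies the average of the pinned weight by at most `ρ`. -/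
lemma WD_insert [Nonempty X] (hW : IsPos W) {D : Finset V} {z : V} (hz : z ∉ D) (ρ : ℝ≥0)
    (h : ∀ x : V → X, av (fun t => Fp G W D x z t *
        ∏ v ∈ outN G D z, nm W (degIn G Dᶜ v) (fun y => Fp G W D x v y * W t y)) ≤
      ρ * (nm W (degIn G Dᶜ z + 1) (Fp G W D x z) *
        ∏ v ∈ outN G D z, nm W (degIn G Dᶜ v + 1) (Fp G W D x v))) :
    av (WD G W (insert z D)) ≤ ρ * av (WD G W D) := by
  rw [av_update z (WD G W (insert z D)), av_comm, ← av_mul_left]
  apply av_mono
  intro x
  set S' : Finset V := (insert z D)ᶜ with hS'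
  have hzS' : z ∉ S' := by rw [hS']; simp
  have hDc : Dᶜ = insert z S' := (Finset.insert_compl_insert hz).symm
  have hT : S'.filter (fun v => G.Adj z v) = outN G D z := by
    ext v
    rw [hS']
    unfold outN
    simp only [Finset.mem_filter, Finset.mem_compl, Finset.mem_insert, not_or, Finset.mem_univ,
      true_and]
    constructor
    · rintro ⟨⟨_, h2⟩, h3⟩
      exact ⟨h3, h2⟩
    · rintro ⟨h1, h2⟩
      exact ⟨⟨h1.ne', h2⟩, h1⟩
  set R := S'.filter (fun v => ¬ G.Adj z v) with hR
  have hsplit : ∀ F : V → ℝ≥0, ∏ v ∈ S', F v = (∏ v ∈ outN G D z, F v) * ∏ v ∈ R, F v := by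
    intro F
    rw [← hT, hR, Finset.prod_filter_mul_prod_filter_not]
  have hdeg : ∀ v, degIn G Dᶜ v = degIn G S' v + if G.Adj v z then 1 else 0 := by
    intro v
    rw [hDc]
    exact degIn_insert G hzS' v
  set c : ℝ≥0 := ham G W D x * ∏ v ∈ R, nm W (degIn G Dᶜ v + 1) (Fp G W D x v) with hc
  have h1 : ∀ t, WD G W (insert z D) (Function.update x z t) = c * (Fp G W D x z t *
        ∏ v ∈ outN G D z, nm W (degIn G Dᶜ v) (fun y => Fp G W D x v y * W t y)) := by
    intro t
    unfold WD
    rw [ham_insert' G hW hz, ← hS', hsplit, hc]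
    have e1 : ∏ v ∈ outN G D z, nm W (degIn G S' v + 1)
          (Fp G W (insert z D) (Function.update x z t) v) =
        ∏ v ∈ outN G D z, nm W (degIn G Dᶜ v) (fun y => Fp G W D x v y * W t y) := by
      apply Finset.prod_congr rfl
      intro v hv
      have hadj : G.Adj z v := (Finset.mem_filter.mp hv).2.1
      rw [Fp_insert G hz, hdeg v, if_pos hadj.symm]
      simp only [if_pos hadj]
    have e2 : ∏ v ∈ R, nm W (degIn G S' v + 1)
          (Fp G W (insert z D) (Function.update x z t) v) =
        ∏ v ∈ R, nm W (degIn G Dᶜ v + 1) (Fp G W D x v) := by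
      apply Finset.prod_congr rfl
      intro v hv
      have hadj : ¬ G.Adj z v := (Finset.mem_filter.mp hv).2
      rw [Fp_insert G hz, hdeg v, if_neg (fun h => hadj h.symm)]
      simp only [if_neg hadj, add_zero]
    rw [e1, e2]
    ring
  simp_rw [h1]
  rw [av_mul_left]
  have h2 : ρ * WD G W D x = c * (ρ * (nm W (degIn G Dᶜ z + 1) (Fp G W D x z) *
        ∏ v ∈ outN G D z, nm W (degIn G Dᶜ v + 1) (Fp G W D x v))) := by
    have e3 : ∏ v ∈ Dᶜ, nm W (degIn G Dᶜ v + 1) (Fp G W D x v) =
        nm W (degIn G Dᶜ z + 1) (Fp G W D x z) *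
          ((∏ v ∈ outN G D z, nm W (degIn G Dᶜ v + 1) (Fp G W D x v)) *
            ∏ v ∈ R, nm W (degIn G Dᶜ v + 1) (Fp G W D x v)) := by
      rw [← hsplit]
      have h9 := Finset.prod_insert (f := fun v => nm W (degIn G Dᶜ v + 1) (Fp G W D x v)) hzS'
      rw [← hDc] at h9
      exact h9
    unfold WD
    rw [e3, hc]
    ring
  rw [h2]
  exact mul_le_mul_right (h x) c

lemma WD_empty [Nonempty X] {d : ℕ} (hG : ∀ v, G.degree v = d) :
    av (WD G W ∅) = nm W (d + 1) (fun _ => 1) ^ Fintype.card V := by
  have h1 : ∀ x : V → X, WD G W ∅ x = nm W (d + 1) (fun _ => 1) ^ Fintype.card V := by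
    intro x
    unfold WD
    have h2 : ham G W ∅ x = 1 := by
      unfold ham
      rw [Finset.prod_empty]
    have h3 : ∀ v ∈ (∅ : Finset V)ᶜ, nm W (degIn G (∅ : Finset V)ᶜ v + 1) (Fp G W ∅ x v) =
        nm W (d + 1) (fun _ => 1) := by
      intro v _
      have h4 : degIn G (∅ : Finset V)ᶜ v = d := by
        rw [Finset.compl_empty, ← hG v]
        unfold degIn
        rw [← SimpleGraph.card_neighborFinset_eq_degree]
        congr 1
        ext u
        simp
      rw [Fp_empty, h4]
    rw [h2, one_mul, Finset.prod_congr rfl h3, Finset.prod_const, Finset.compl_empty,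
      Finset.card_univ]
  rw [av_congr h1, av_const]

lemma degIn_add {d : ℕ} (hG : ∀ v, G.degree v = d) (D : Finset V) (v : V) :
    degIn G D v + degIn G Dᶜ v = d := by
  rw [← hG v, ← SimpleGraph.card_neighborFinset_eq_degree]
  unfold degIn
  rw [← Finset.card_union_of_disjoint]
  · congr 1
    ext u
    simp only [Finset.mem_union, Finset.mem_filter, Finset.mem_compl,
      SimpleGraph.mem_neighborFinset]
    tauto
  · apply Finset.disjoint_filter_filter
    exact disjoint_compl_right

/-- Hölder's inequality with the base weight `F` and functions `u v`. -/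
lemma holder_pin {ι : Type*} (T : Finset ι) {d k : ℕ} (hd : 0 < d)
    (hk : T.card + k = d) (F : X → ℝ≥0) (u : ι → X → ℝ≥0) :
    av (fun t => F t * ∏ v ∈ T, u v t) ≤
      av F ^ ((k : ℝ) / d) * ∏ v ∈ T, av (fun t => F t * u v t ^ d) ^ (1 / (d : ℝ)) := by
  have hdR : (d : ℝ≥0) ≠ 0 := by exact_mod_cast hd.ne'
  have hdR' : (d : ℝ) ≠ 0 := by exact_mod_cast hd.ne'
  have hkR : (T.card : ℝ≥0) + k = d := by exact_mod_cast hk
  have hkR' : (T.card : ℝ) + k = d := by exact_mod_cast hk
  set p : Option ι → ℝ≥0 := fun o => o.elim ((k : ℝ≥0) / d) (fun _ => 1 / d) with hp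
  set g : Option ι → X → ℝ≥0 := fun o => o.elim F (fun v t => F t * u v t ^ d) with hg
  have h := holder (X := X) (Finset.insertNone T) p (by
    rw [Finset.sum_insertNone]
    simp only [hp, Option.elim_none, Option.elim_some, Finset.sum_const, nsmul_eq_mul]
    rw [mul_one_div, ← add_div, add_comm, hkR, div_self hdR]) g
  have e1 : ∀ x, F x * ∏ v ∈ T, u v x = ∏ i ∈ Finset.insertNone T, g i x ^ (p i : ℝ) := by
    intro x
    rw [Finset.prod_insertNone]
    simp only [hp, hg, Option.elim_none, Option.elim_some]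
    have h1 : ∀ v ∈ T, (F x * u v x ^ d) ^ ((1 / d : ℝ≥0) : ℝ) = F x ^ (1 / (d : ℝ)) * u v x := by
      intro v _
      push_cast
      rw [NNReal.mul_rpow, ← NNReal.rpow_natCast (u v x) d, ← NNReal.rpow_mul,
        mul_one_div_cancel hdR', NNReal.rpow_one]
    rw [Finset.prod_congr rfl h1, Finset.prod_mul_distrib, Finset.prod_const, ← mul_assoc]
    congr 1
    rw [← NNReal.rpow_natCast, ← NNReal.rpow_mul, ← NNReal.rpow_add_of_nonneg _ (by positivity)
      (by positivity)]
    have : ((((k : ℝ≥0) / d : ℝ≥0) : ℝ) + 1 / (d : ℝ) * (T.card : ℝ)) = 1 := by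
      push_cast
      rw [one_div_mul_eq_div, ← add_div, add_comm, hkR', div_self hdR']
    rw [this, NNReal.rpow_one]
  rw [av_congr e1]
  refine h.trans (le_of_eq ?_)
  rw [Finset.prod_insertNone]
  simp only [hp, hg, Option.elim_none, Option.elim_some]
  push_cast
  rfl

end Pool.Agent.MP_a3e05c_co
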