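import Pool.Agent.Lib.MP_a3e05c_co.Q.Est

set_option autoImplicit false
set_option linter.unusedSectionVars false

/-! Two-sided bounds for the norms of the constant one, and the ratio of consecutive norms. -/

namespace Pool.Agent.MP_a3e05c_co

open scoped NNReal Real
open Finset

variable {m : ℕ} [NeZero m]

lemma NQ_one : NQ m 1 = 1 := by
  unfold NQ
  rw [N_one, av_const]

lemma pow_ratio_le (n : ℕ) (hn : 1 ≤ n) : ((n : ℝ) + 1) ^ (n + 1) ≤ 9 * (n : ℝ) ^ (n + 1) := by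
  have hnR : (1 : ℝ) ≤ n := by exact_mod_cast hn
  have h1 : (n : ℝ) + 1 ≤ n * Real.exp (1 / n) := by
    have h2 := Real.add_one_le_exp (1 / (n : ℝ))
    calc (n : ℝ) + 1 = n * (1 / n + 1) := by field_simp; ring
      _ ≤ _ := mul_le_mul_of_nonneg_left h2 (by positivity)
  have h2 : ((n : ℝ) + 1) ^ (n + 1) ≤ (n * Real.exp (1 / n)) ^ (n + 1) :=
    pow_le_pow_left₀ (by positivity) h1 _
  refine h2.trans ?_
  rw [mul_pow, ← Real.exp_nat_mul, mul_comm]
  apply mul_le_mul_of_nonneg_right _ (by positivity)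
  have h3 : ((n + 1 : ℕ) : ℝ) * (1 / n) ≤ 2 := by
    rw [mul_one_div, div_le_iff₀ (by positivity)]
    push_cast
    linarith
  have h4 : Real.exp 2 ≤ 9 := by
    have h5 : Real.exp 2 = Real.exp 1 ^ 2 := by
      rw [← Real.exp_nat_mul]; norm_num
    have h6 := Real.exp_one_lt_d9
    have h7 := Real.exp_pos 1
    rw [h5]
    nlinarith
  exact (Real.exp_le_exp.mpr h3).trans h4

lemma NQ_sq_le {d : ℕ} (hU : Up m d) (n : ℕ) (hn : n ≤ d) :
    ((n : ℝ) + 1) ^ (n + 1) * (NQ m (n + 1) : ℝ) ^ 2 ≤ 36 ^ (n + 1) := by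
  induction n with
  | zero => simp [NQ_one]
  | succ n ih =>
    have ih' := ih (by omega)
    have h1 := NQ_succ_le (m := m) (n + 1) (by omega)
    have h2 := hU (n + 1) (by omega) (by omega)
    set a : ℝ := ((av (fun t : ZMod m => WQ t 0 ^ (n + 1)) : ℝ≥0) : ℝ) with ha
    have h3 : (NQ m (n + 1 + 1) : ℝ) ≤ a * (NQ m (n + 1) : ℝ) := by exact_mod_cast h1
    have h4 : (NQ m (n + 1 + 1) : ℝ) ^ 2 ≤ a ^ 2 * (NQ m (n + 1) : ℝ) ^ 2 := by
      rw [← mul_pow]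
      exact pow_le_pow_left₀ (by positivity) h3 2
    have h5 := pow_ratio_le (n + 1) (by omega)
    push_cast at h2 h5 ⊢
    have h6 : ((n : ℝ) + 1) ^ (n + 1 + 1) * (a ^ 2 * (NQ m (n + 1) : ℝ) ^ 2) ≤
        4 * 36 ^ (n + 1) := by
      calc ((n : ℝ) + 1) ^ (n + 1 + 1) * (a ^ 2 * (NQ m (n + 1) : ℝ) ^ 2)
          = (((n : ℝ) + 1) * a ^ 2) * (((n : ℝ) + 1) ^ (n + 1) * (NQ m (n + 1) : ℝ) ^ 2) := by ring
        _ ≤ 4 * 36 ^ (n + 1) := mul_le_mul h2 ih' (by positivity) (by norm_num)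
    calc ((n : ℝ) + 1 + 1) ^ (n + 1 + 1) * (NQ m (n + 1 + 1) : ℝ) ^ 2
        ≤ (9 * ((n : ℝ) + 1) ^ (n + 1 + 1)) * (a ^ 2 * (NQ m (n + 1) : ℝ) ^ 2) :=
          mul_le_mul h5 h4 (by positivity) (by positivity)
      _ = 9 * (((n : ℝ) + 1) ^ (n + 1 + 1) * (a ^ 2 * (NQ m (n + 1) : ℝ) ^ 2)) := by ring
      _ ≤ 9 * (4 * 36 ^ (n + 1)) := mul_le_mul_of_nonneg_left h6 (by norm_num)
      _ = 36 ^ (n + 1 + 1) := by ring

/-- The upper bound. -/
lemma ka_sq_le {d : ℕ} (hU : Up m d) (n : ℕ) (hn1 : 1 ≤ n) (hn : n ≤ d + 1) :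
    (n : ℝ) * (ka m n : ℝ) ^ 2 ≤ 36 := by
  obtain ⟨k, rfl⟩ : ∃ k, n = k + 1 := ⟨n - 1, by omega⟩
  have h := NQ_sq_le hU k (by omega)
  rw [← ka_pow (by omega : k + 1 ≠ 0)] at h
  push_cast at h ⊢
  have h2 : (((k : ℝ) + 1) * (ka m (k + 1) : ℝ) ^ 2) ^ (k + 1) ≤ 36 ^ (k + 1) := by
    refine le_trans (le_of_eq ?_) h
    rw [mul_pow, ← pow_mul, ← pow_mul, mul_comm 2]
  exact (pow_le_pow_iff_left₀ (by positivity) (by norm_num) (by omega)).mp h2

lemma avR_comm {X Y : Type*} [Fintype X] [Fintype Y] (f : X → Y → ℝ) :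
    avR (fun x => avR (fun y => f x y)) = avR (fun y => avR (fun x => f x y)) := by
  unfold avR
  rw [← Finset.mul_sum, ← Finset.mul_sum, Finset.sum_comm]
  ring

lemma ks_add (s x y : ZMod m) : ks (x + s) (y + s) = ks x y := by
  unfold ks
  rw [add_sub_add_right_eq_sub]

lemma count_le' {L : ℝ} (hL : 1 ≤ L) (y : ZMod m) :
    1 / (2 * π * √L) ≤ avR (fun c : ZMod m => if ks y c ^ 2 ≤ 1 / L then (1 : ℝ) else 0) := by
  refine (count_le (m := m) hL).trans (le_of_eq ?_)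
  unfold avR
  congr 1
  rw [← Equiv.sum_comp (Equiv.addRight (-y)) (fun t : ZMod m => if ks t 0 ^ 2 ≤ 1 / L then (1 : ℝ) else 0)]
  apply Finset.sum_congr rfl
  intro c _
  rw [Equiv.coe_addRight]
  dsimp only
  have h := ks_add (-y) c y
  rw [add_neg_cancel] at h
  rw [h, ks_sq_comm]

/-- The lower bound. -/
lemma av_le_nm (n : ℕ) (hn : 1 ≤ n) (F : ZMod m → ℝ≥0) :
    ((av F : ℝ≥0) : ℝ) ≤ 24 * √n * (nm (WQ : ZMod m → ZMod m → ℝ≥0) n F : ℝ) := by
  have hnR : (1 : ℝ) ≤ n := by exact_mod_cast hn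
  set f : ZMod m → ZMod m → ℝ≥0 := fun c y => if ks y c ^ 2 ≤ 1 / (8 * (n : ℝ)) then F y else 0
    with hf
  have hw0 : 0 ≤ 1 - 1 / (4 * (n : ℝ)) := by
    rw [sub_nonneg, div_le_one (by positivity)]
    linarith
  set w : ℝ≥0 := ⟨1 - 1 / (4 * (n : ℝ)), hw0⟩ with hw
  have hw1 : w ≤ 1 := by
    rw [← NNReal.coe_le_coe, NNReal.coe_one]
    have h9 : 0 ≤ 1 / (4 * (n : ℝ)) := by positivity
    have h8 : ((w : ℝ≥0) : ℝ) = 1 - 1 / (4 * (n : ℝ)) := by rw [hw]; rfl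
    rw [h8]
    linarith
  have hwn : (3 : ℝ) / 4 ≤ (w : ℝ) ^ n := by
    have h1 := one_add_mul_le_pow (a := -(1 / (4 * (n : ℝ)))) (by
      have : 1 / (4 * (n : ℝ)) ≤ 1 := by
        rw [div_le_one (by positivity)]; linarith
      linarith) n
    have h2 : (n : ℝ) * -(1 / (4 * (n : ℝ))) = -(1 / 4) := by field_simp
    rw [h2] at h1
    have h3 : ((w : ℝ≥0) : ℝ) = 1 + -(1 / (4 * (n : ℝ))) := by rw [hw]; rfl
    rw [h3]
    linarith
  have h1 : ∀ c, 3 / 4 * ((av (f c) : ℝ≥0) : ℝ) ≤ (nm (WQ : ZMod m → ZMod m → ℝ≥0) n F : ℝ) := by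
    intro c
    have h2 : av (f c) ^ n * w ^ (n * n) ≤ N (WQ : ZMod m → ZMod m → ℝ≥0) n (f c) := by
      apply N_ge_supp n w hw1 {y | ks y c ^ 2 ≤ 1 / (8 * (n : ℝ))}
      · intro x hx
        rw [hf]
        exact if_neg hx
      · intro x hx y hy
        rw [← NNReal.coe_le_coe, WQ_coe']
        have h3 := ks_tri x c y
        rw [ks_sq_comm c x, ks_sq_comm c y] at h3
        have hx' : ks x c ^ 2 ≤ 1 / (8 * (n : ℝ)) := hx
        have hy' : ks y c ^ 2 ≤ 1 / (8 * (n : ℝ)) := hy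
        have h4 : ((w : ℝ≥0) : ℝ) = 1 - 1 / (4 * (n : ℝ)) := by rw [hw]; rfl
        rw [h4]
        have h5 : 1 / (4 * (n : ℝ)) = 2 * (1 / (8 * (n : ℝ))) := by field_simp; norm_num
        rw [h5]
        linarith
    have h3 : (av (f c) * w ^ n) ^ n ≤ nm (WQ : ZMod m → ZMod m → ℝ≥0) n (f c) ^ n := by
      rw [nm_pow (by omega), mul_pow, ← pow_mul]
      exact h2
    have h4 : av (f c) * w ^ n ≤ nm (WQ : ZMod m → ZMod m → ℝ≥0) n (f c) :=
      (pow_le_pow_iff_left₀ (zero_le) (zero_le) (by omega)).mp h3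
    have h5 : nm (WQ : ZMod m → ZMod m → ℝ≥0) n (f c) ≤
        nm (WQ : ZMod m → ZMod m → ℝ≥0) n F := by
      apply nm_mono
      intro y
      rw [hf]
      dsimp only
      split_ifs
      · exact le_rfl
      · exact zero_le
    have h6 : ((av (f c) : ℝ≥0) : ℝ) * (w : ℝ) ^ n ≤
        (nm (WQ : ZMod m → ZMod m → ℝ≥0) n F : ℝ) := by exact_mod_cast h4.trans h5
    refine le_trans ?_ h6
    rw [mul_comm]
    exact mul_le_mul_of_nonneg_left hwn (by positivity)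
  have h2 : avR (fun c : ZMod m => ((av (f c) : ℝ≥0) : ℝ)) =
      avR (fun y : ZMod m => (F y : ℝ) *
        avR (fun c : ZMod m => if ks y c ^ 2 ≤ 1 / (8 * (n : ℝ)) then (1 : ℝ) else 0)) := by
    simp_rw [av_coe]
    rw [avR_comm]
    apply avR_congr
    intro y
    rw [← avR_mul_left]
    apply avR_congr
    intro c
    rw [hf]
    dsimp only
    split_ifs
    · rw [mul_one]
    · rw [mul_zero]; rfl
  have h3 : 1 / (2 * π * √(8 * (n : ℝ))) * ((av F : ℝ≥0) : ℝ) ≤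
      avR (fun c : ZMod m => ((av (f c) : ℝ≥0) : ℝ)) := by
    rw [h2, av_coe, ← avR_mul_left]
    apply avR_mono
    intro y
    rw [mul_comm]
    exact mul_le_mul_of_nonneg_left (count_le' (by linarith) y) (by positivity)
  have h4 : avR (fun c : ZMod m => 3 / 4 * ((av (f c) : ℝ≥0) : ℝ)) ≤
      (nm (WQ : ZMod m → ZMod m → ℝ≥0) n F : ℝ) := by
    refine (avR_mono h1).trans (le_of_eq ?_)
    unfold avR
    rw [Finset.sum_const, Finset.card_univ, nsmul_eq_mul, ← mul_assoc]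
    have : (Fintype.card (ZMod m) : ℝ) ≠ 0 := by exact_mod_cast Fintype.card_ne_zero
    rw [inv_mul_cancel₀ this, one_mul]
  rw [avR_mul_left] at h4
  have h5 : 3 / 4 * (1 / (2 * π * √(8 * (n : ℝ)))) * ((av F : ℝ≥0) : ℝ) ≤
      (nm (WQ : ZMod m → ZMod m → ℝ≥0) n F : ℝ) := by
    rw [mul_assoc]
    exact (mul_le_mul_of_nonneg_left h3 (by norm_num)).trans h4
  have h6 : 1 ≤ 24 * √(n : ℝ) * (3 / 4 * (1 / (2 * π * √(8 * (n : ℝ))))) := by
    have h7 : √(8 * (n : ℝ)) = √8 * √n := Real.sqrt_mul (by norm_num) _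
    have h8 : √(8 : ℝ) ≤ 2.83 := by
      rw [Real.sqrt_le_left (by norm_num)]
      norm_num
    have h9 : 0 < √(8 : ℝ) := by positivity
    have h10 : 0 < √(n : ℝ) := by positivity
    have h11 := Real.pi_pos
    have h12 := Real.pi_lt_d2
    have h13 : 24 * √(n : ℝ) * (3 / 4 * (1 / (2 * π * √(8 * (n : ℝ))))) = 9 / (π * √8) := by
      rw [h7]; field_simp; norm_num
    rw [h13, le_div_iff₀ (by positivity)]
    nlinarith
  have h7 : 0 ≤ ((av F : ℝ≥0) : ℝ) := by positivity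
  calc ((av F : ℝ≥0) : ℝ) = 1 * ((av F : ℝ≥0) : ℝ) := (one_mul _).symm
    _ ≤ (24 * √(n : ℝ) * (3 / 4 * (1 / (2 * π * √(8 * (n : ℝ)))))) * ((av F : ℝ≥0) : ℝ) :=
        mul_le_mul_of_nonneg_right h6 h7
    _ = 24 * √(n : ℝ) * (3 / 4 * (1 / (2 * π * √(8 * (n : ℝ)))) * ((av F : ℝ≥0) : ℝ)) := by ring
    _ ≤ _ := mul_le_mul_of_nonneg_left h5 (by positivity)

lemma one_le_ka (n : ℕ) (hn : 1 ≤ n) : 1 ≤ 24 * √n * (ka m n : ℝ) := by
  have h := av_le_nm (m := m) n hn (fun _ => 1)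
  rw [av_const] at h
  exact_mod_cast h

lemma ka_pos (n : ℕ) (hn : 1 ≤ n) : 0 < (ka m n : ℝ) := by
  have h := one_le_ka (m := m) n hn
  by_contra h0
  have h1 : (ka m n : ℝ) = 0 := le_antisymm (not_lt.mp h0) (by positivity)
  rw [h1, mul_zero] at h
  linarith

lemma ka_le_one (n : ℕ) (hn : 1 ≤ n) : (ka m n : ℝ) ≤ 1 := by
  have h := nm_anti isPos_WQ WQ_le_one le_rfl hn (fun _ : ZMod m => (1 : ℝ≥0))
  rw [nm_one, av_const] at h
  exact_mod_cast h

lemma ka_anti {a b : ℕ} (ha : 1 ≤ a) (hab : a ≤ b) : (ka m b : ℝ) ≤ ka m a := by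
  have h := nm_anti isPos_WQ WQ_le_one ha hab (fun _ : ZMod m => (1 : ℝ≥0))
  exact_mod_cast h

/-- The logarithmic decrement. -/
noncomputable def dk (m : ℕ) [NeZero m] (n : ℕ) : ℝ := Real.log (ka m n) - Real.log (ka m (n + 1))

lemma dk_nonneg (n : ℕ) (hn : 1 ≤ n) : 0 ≤ dk m n := by
  unfold dk
  rw [sub_nonneg]
  exact Real.log_le_log (ka_pos _ (by omega)) (ka_anti hn (by omega))

lemma dk_succ_le (n : ℕ) (hn : 1 ≤ n) : dk m (n + 1) ≤ dk m n := by
  obtain ⟨k, rfl⟩ : ∃ k, n = k + 1 := ⟨n - 1, by omega⟩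
  have h1 := nm_logconvex (isPos_WQ (m := m)) k (fun _ => 1)
  have h2 : (ka m (k + 2) : ℝ) ^ 2 ≤ (ka m (k + 1) : ℝ) * ka m (k + 3) := by exact_mod_cast h1
  have p1 := ka_pos (m := m) (k + 1) (by omega)
  have p2 := ka_pos (m := m) (k + 2) (by omega)
  have p3 := ka_pos (m := m) (k + 3) (by omega)
  have h3 := Real.log_le_log (by positivity) h2
  rw [Real.log_pow, Real.log_mul p1.ne' p3.ne'] at h3
  unfold dk
  push_cast at h3
  show Real.log (ka m (k + 2)) - Real.log (ka m (k + 3)) ≤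
    Real.log (ka m (k + 1)) - Real.log (ka m (k + 2))
  linarith

lemma sum_dk_ge (n : ℕ) : ∀ j : ℕ, j < n →
    ((j : ℝ) + 1) * dk m n ≤ Real.log (ka m (n - j)) - Real.log (ka m (n + 1)) := by
  intro j
  induction j with
  | zero =>
    intro _
    rw [Nat.sub_zero]
    unfold dk
    push_cast
    linarith
  | succ j ih =>
    intro hj
    have h1 := ih (by omega)
    have h2 : dk m n ≤ dk m (n - (j + 1)) := by
      have : ∀ i, i < n → dk m n ≤ dk m (n - i) := by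
        intro i
        induction i with
        | zero => intro _; rw [Nat.sub_zero]
        | succ i ih' =>
          intro hi
          refine (ih' (by omega)).trans ?_
          have h3 := dk_succ_le (m := m) (n - (i + 1)) (by omega)
          have h4 : n - (i + 1) + 1 = n - i := by omega
          rw [h4] at h3
          exact h3
      exact this (j + 1) hj
    have h3 : dk m (n - (j + 1)) = Real.log (ka m (n - (j + 1))) - Real.log (ka m (n - j)) := by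
      unfold dk
      have h4 : n - (j + 1) + 1 = n - j := by omega
      rw [h4]
    rw [h3] at h2
    push_cast
    linarith

/-- The ratio of consecutive norms. -/
lemma dk_le {d : ℕ} (hU : Up m d) (n : ℕ) (hn2 : 2 ≤ n) (hn : n ≤ d) : dk m n ≤ 12 / n := by
  have hnR : (2 : ℝ) ≤ n := by exact_mod_cast hn2
  set k := (n + 1) / 2 with hk
  have hk1 : 1 ≤ k := by omega
  have h1 := sum_dk_ge (m := m) n (n - k) (by omega)
  have e1 : n - (n - k) = k := by omega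
  rw [e1] at h1
  have hkR : (1 : ℝ) ≤ k := by exact_mod_cast hk1
  have h2 : (n : ℝ) / 2 ≤ ((n - k : ℕ) : ℝ) + 1 := by
    have h3 : n ≤ 2 * (n - k) + 2 := by omega
    have h4 : (n : ℝ) ≤ 2 * ((n - k : ℕ) : ℝ) + 2 := by exact_mod_cast h3
    linarith
  have hup := ka_sq_le hU k hk1 (by omega)
  have hlo := one_le_ka (m := m) (n + 1) (by omega)
  have pk := ka_pos (m := m) k hk1
  have pn := ka_pos (m := m) (n + 1) (by omega)
  have h3k : (n : ℝ) + 1 ≤ 3 * k := by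
    have : n + 1 ≤ 3 * k := by omega
    exact_mod_cast this
  -- ratio squared
  have h5 : (ka m k : ℝ) ^ 2 ≤ (403 * ka m (n + 1)) ^ 2 := by
    have h6 : 1 ≤ (24 * √((n + 1 : ℕ) : ℝ) * (ka m (n + 1) : ℝ)) ^ 2 := one_le_pow₀ hlo
    rw [mul_pow, mul_pow, Real.sq_sqrt (by positivity)] at h6
    push_cast at h6
    have h7 : (k : ℝ) * (ka m k : ℝ) ^ 2 ≤ 36 * (24 ^ 2 * ((n : ℝ) + 1) * (ka m (n + 1) : ℝ) ^ 2) :=
      hup.trans (by linarith)
    have h8 : 36 * (24 ^ 2 * ((n : ℝ) + 1) * (ka m (n + 1) : ℝ) ^ 2) ≤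
        k * (403 * ka m (n + 1)) ^ 2 := by
      have h9 : 0 ≤ (ka m (n + 1) : ℝ) ^ 2 := by positivity
      nlinarith [mul_le_mul_of_nonneg_right h3k h9, mul_nonneg (by positivity : (0:ℝ) ≤ k) h9]
    exact le_of_mul_le_mul_left (h7.trans h8) (by positivity)
  have h6 : (ka m k : ℝ) ≤ 403 * ka m (n + 1) :=
    (pow_le_pow_iff_left₀ (by positivity) (by positivity) two_ne_zero).mp h5
  have h7 := Real.log_le_log pk h6
  rw [Real.log_mul (by norm_num) pn.ne'] at h7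
  have h8 : Real.log 403 ≤ 6 := by
    rw [Real.log_le_iff_le_exp (by norm_num)]
    have h9 : Real.exp 6 = Real.exp 1 ^ 6 := by
      rw [← Real.exp_nat_mul]; norm_num
    rw [h9]
    have h10 : (2.718 : ℝ) ^ 6 ≤ Real.exp 1 ^ 6 :=
      pow_le_pow_left₀ (by norm_num) (by linarith [Real.exp_one_gt_d9]) 6
    refine le_trans ?_ h10
    norm_num
  have h9 := dk_nonneg (m := m) n (by omega)
  rw [le_div_iff₀ (by positivity)]
  have h10 : (n : ℝ) / 2 * dk m n ≤ 6 := by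
    calc (n : ℝ) / 2 * dk m n ≤ (((n - k : ℕ) : ℝ) + 1) * dk m n :=
          mul_le_mul_of_nonneg_right h2 h9
      _ ≤ _ := h1
      _ ≤ 6 := by linarith
  linarith

end Pool.Agent.MP_a3e05c_co
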