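import Pool.Agent.Lib.MP_a3e05c_co.Q.Facts
import Pool.Agent.Lib.MP_a3e05c_co.Q.Gain

set_option autoImplicit false
set_option linter.unusedSectionVars false

/-! The effect of the different kinds of pins. -/

namespace Pool.Agent.MP_a3e05c_co

open scoped NNReal Real
open Finset

section general

variable {X : Type*} [Fintype X]

lemma holder_great {ι : Type*} (R : Finset ι) {d t : ℕ} (hd : 2 ≤ d) (hR : R.card + t + 1 = d)
    (f : X → ℝ≥0) (u : ι → X → ℝ≥0) :
    av (fun x => f x * ∏ v ∈ R, u v x) ≤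
      av f ^ ((t : ℝ) / ((d : ℝ) - 1)) *
        (av (fun x => f x ^ d) ^ ((R.card : ℝ) / ((d : ℝ) * ((d : ℝ) - 1))) *
          ∏ v ∈ R, av (fun x => u v x ^ d) ^ (1 / (d : ℝ))) := by
  have hd2 : (2 : ℝ) ≤ d := by exact_mod_cast hd
  have hd1 : (0 : ℝ) < (d : ℝ) - 1 := by linarith
  have hd0 : (0 : ℝ) < d := by linarith
  have hRR : (R.card : ℝ) + t + 1 = d := by exact_mod_cast hR
  set α : ℝ≥0 := ⟨(t : ℝ) / ((d : ℝ) - 1), by positivity⟩ with hα
  set β : ℝ≥0 := ⟨(R.card : ℝ) / ((d : ℝ) * ((d : ℝ) - 1)), by positivity⟩ with hβ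
  set γ : ℝ≥0 := ⟨1 / (d : ℝ), by positivity⟩ with hγ
  set p : Option (Option ι) → ℝ≥0 := fun o => o.elim α (fun o' => o'.elim β (fun _ => γ)) with hp
  set g : Option (Option ι) → X → ℝ≥0 := fun o => o.elim f
    (fun o' => o'.elim (fun x => f x ^ d) (fun v x => u v x ^ d)) with hg
  have hsum : (t : ℝ) / ((d : ℝ) - 1) + ((R.card : ℝ) / ((d : ℝ) * ((d : ℝ) - 1)) +
      R.card * (1 / (d : ℝ))) = 1 := by
    have e1 : (t : ℝ) = d - 1 - R.card := by linarith
    rw [e1]
    field_simp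
    ring
  have h := holder (X := X) (Finset.insertNone (Finset.insertNone R)) p (by
    rw [Finset.sum_insertNone, Finset.sum_insertNone]
    simp only [hp, Option.elim_none, Option.elim_some, Finset.sum_const, nsmul_eq_mul]
    apply NNReal.eq
    push_cast
    exact hsum) g
  have e1 : ∀ x, f x * ∏ v ∈ R, u v x =
      ∏ i ∈ Finset.insertNone (Finset.insertNone R), g i x ^ (p i : ℝ) := by
    intro x
    rw [Finset.prod_insertNone, Finset.prod_insertNone]
    simp only [hp, hg, Option.elim_none, Option.elim_some]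
    have h1 : ∀ v ∈ R, (u v x ^ d) ^ (γ : ℝ) = u v x := by
      intro v _
      show (u v x ^ d) ^ (1 / (d : ℝ)) = u v x
      rw [← NNReal.rpow_natCast (u v x) d, ← NNReal.rpow_mul, mul_one_div_cancel hd0.ne',
        NNReal.rpow_one]
    rw [Finset.prod_congr rfl h1, ← mul_assoc]
    congr 1
    rw [← NNReal.rpow_natCast, ← NNReal.rpow_mul, ← NNReal.rpow_add_of_nonneg _ (by positivity)
      (by positivity)]
    have : ((α : ℝ) + (d : ℝ) * (β : ℝ)) = 1 := by
      show (t : ℝ) / ((d : ℝ) - 1) + (d : ℝ) * ((R.card : ℝ) / ((d : ℝ) * ((d : ℝ) - 1))) = 1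
      have e1 : (t : ℝ) = d - 1 - R.card := by linarith
      rw [e1]
      field_simp
      ring
    rw [this, NNReal.rpow_one]
  rw [av_congr e1]
  refine h.trans (le_of_eq ?_)
  rw [Finset.prod_insertNone, Finset.prod_insertNone]
  simp only [hp, hg, Option.elim_none, Option.elim_some]
  rfl

lemma arith_a {d t r : ℝ} (h0 : 0 < d) (h1 : 0 < d - 1) (h : r + t + 1 = d) :
    1 / d * t + (1 / d * (t / (d - 1)) + (r / (d * (d - 1)) + 1 / d * r)) = 1 := by
  have e1 : t = d - 1 - r := by linarith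
  rw [e1]
  field_simp
  ring

lemma arith_c (k1 k2 k3 k4 E a1 a2 P0 P1 : ℝ≥0) :
    k1 * P0 * (E * (k2 * a1) * (k3 * a2 * (k4 * P1))) =
      E * ((k1 * (k2 * (k3 * k4))) * (P0 * ((a1 * a2) * P1))) := by
  ring

lemma arith_b {d r : ℝ} (h0 : 0 < d) : d * (r / (d * (d - 1))) = r / (d - 1) := by
  rw [← mul_div_assoc, mul_div_mul_left _ _ h0.ne']

end general

variable {m : ℕ} [NeZero m]
variable {V : Type*} [Fintype V] [DecidableEq V] [LinearOrder V] (G : SimpleGraph V)
  [DecidableRel G.Adj]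

/-- The unpinned norm at `v`. -/
noncomputable def nv (m : ℕ) [NeZero m] (D : Finset V) (x : V → ZMod m) (v : V) : ℝ≥0 :=
  nm (WQ : ZMod m → ZMod m → ℝ≥0) (degIn G Dᶜ v + 1) (Fp G WQ D x v)

/-- The norm at `v` after adding a neighbour with phase `t`. -/
noncomputable def uv (m : ℕ) [NeZero m] (D : Finset V) (x : V → ZMod m) (v : V) (t : ZMod m) :
    ℝ≥0 :=
  nm (WQ : ZMod m → ZMod m → ℝ≥0) (degIn G Dᶜ v) (fun y => Fp G WQ D x v y * WQ t y)

lemma uv_bound {d : ℕ} (hG : ∀ v, G.degree v = d) (D : Finset V) (x : V → ZMod m) {z v : V}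
    (hz : z ∉ D) (hv : v ∈ outN G D z) (F : ZMod m → ℝ≥0) :
    av (fun t => F t * uv G m D x v t ^ d) ≤
      nm (WQ : ZMod m → ZMod m → ℝ≥0) (d + 1) F * nv G m D x v ^ d := by
  apply local_nm isPos_WQ
  · have hadj : G.Adj z v := (Finset.mem_filter.mp hv).2.1
    unfold degIn
    rw [Nat.succ_le_iff, Finset.card_pos]
    exact ⟨z, Finset.mem_filter.mpr ⟨Finset.mem_compl.mpr hz, hadj.symm⟩⟩
  · have := degIn_add G hG D v
    omega

lemma Fp_of_degIn_zero {W : ZMod m → ZMod m → ℝ≥0} {D : Finset V} {x : V → ZMod m} {v : V}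
    (h : degIn G D v = 0) : Fp G W D x v = fun _ => 1 := by
  funext y
  unfold Fp
  apply Finset.prod_eq_one
  intro p hp
  rw [if_neg]
  intro hadj
  unfold degIn at h
  rw [Finset.card_eq_zero] at h
  have : p ∈ D.filter (fun u => G.Adj v u) := Finset.mem_filter.mpr ⟨hp, hadj.symm⟩
  rw [h] at this
  simp at this

lemma Fp_of_degIn_one {W : ZMod m → ZMod m → ℝ≥0} {D : Finset V} {x : V → ZMod m} {v : V}
    (h : degIn G D v = 1) : ∃ p : ZMod m, Fp G W D x v = fun y => W p y := by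
  unfold degIn at h
  rw [Finset.card_eq_one] at h
  obtain ⟨q, hq⟩ := h
  refine ⟨x q, ?_⟩
  funext y
  unfold Fp
  have hqD : q ∈ D ∧ G.Adj v q := by
    have : q ∈ D.filter (fun u => G.Adj v u) := by rw [hq]; simp
    exact Finset.mem_filter.mp this
  rw [Finset.prod_eq_single_of_mem q hqD.1]
  · rw [if_pos hqD.2.symm]
  · intro p hp hpq
    rw [if_neg]
    intro hadj
    have : p ∈ D.filter (fun u => G.Adj v u) := Finset.mem_filter.mpr ⟨hp, hadj.symm⟩
    rw [hq, Finset.mem_singleton] at this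
    exact hpq this

lemma uv_fresh {d : ℕ} (hd : 0 < d) (hG : ∀ v, G.degree v = d) (D : Finset V) (x : V → ZMod m)
    {v : V} (hv : degIn G D v = 0) (t : ZMod m) :
    uv G m D x v t ^ d = ka m (d + 1) * nv G m D x v ^ d := by
  have h1 := degIn_add G hG D v
  have h2 : degIn G Dᶜ v = d := by omega
  unfold uv nv
  rw [Fp_of_degIn_zero G hv, h2]
  have h3 : (fun y => (1 : ℝ≥0) * WQ t y) = fun y => WQ t y := by
    funext y; rw [one_mul]
  rw [h3, nm_pin_pow (by omega)]
  show ka m (d + 1) ^ (d + 1) = ka m (d + 1) * ka m (d + 1) ^ d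
  ring

/-- The factor of Fact 2. -/
noncomputable def E2 (d : ℕ) : ℝ≥0 := ⟨Real.exp (-(Real.log d / (4 * d))), (Real.exp_pos _).le⟩

/-- The factor of Fact 1. -/
noncomputable def E1 : ℝ≥0 := ⟨Real.exp (-(1 / 256)), (Real.exp_pos _).le⟩

/-- Facts 1 and 2 for a given degree and modulus. -/
structure Good (m : ℕ) [NeZero m] (d : ℕ) : Prop where
  two_le : 2 ≤ d
  one : ∀ p : ZMod m, ((av (fun t : ZMod m => aa m (d - 1) p t) : ℝ≥0) : ℝ) ≤
      Real.exp (-(1 / 256) + (1 + 2 / (d : ℝ)) * Real.log (ka m (d + 1)))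
  two : ∀ p : ZMod m, ((av (fun t : ZMod m => aa m (d - 1) p t ^ d) : ℝ≥0) : ℝ) ≤
      Real.exp (-(Real.log d / (4 * d)) + ((d : ℝ) + 2) * Real.log (ka m (d + 1)))

lemma exists_good : ∃ d₀ : ℕ, ∀ d : ℕ, d₀ ≤ d → ∀ m : ℕ, ∀ [NeZero m], Up m d → Good m d := by
  obtain ⟨a, ha⟩ := fact_one
  obtain ⟨b, hb⟩ := fact_two
  refine ⟨max (max a b) 1 + 1, fun d hd m _ hU => ?_⟩
  have h1 : a ≤ max (max a b) 1 := le_trans (le_max_left _ _) (le_max_left _ _)
  have h2 : b ≤ max (max a b) 1 := le_trans (le_max_right _ _) (le_max_left _ _)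
  have h3 : 1 ≤ max (max a b) 1 := le_max_right _ _
  obtain ⟨e, rfl⟩ : ∃ e, d = e + 1 := ⟨d - 1, by omega⟩
  refine ⟨by omega, fun p => ?_, fun p => ?_⟩
  · have := ha e (by omega) m hU p
    push_cast
    exact this
  · have := hb e (by omega) m hU p
    rw [Nat.add_sub_cancel]
    refine this.trans (le_of_eq ?_)
    push_cast
    congr 2
    ring

lemma uv_once_pow {d : ℕ} (hgood : Good m d) (hG : ∀ v, G.degree v = d) (D : Finset V)
    (x : V → ZMod m) {v : V} (hv : degIn G D v = 1) :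
    av (fun t => uv G m D x v t ^ d) ≤ E2 d * (ka m (d + 1) * nv G m D x v ^ d) := by
  have hd := hgood.two_le
  have h1 := degIn_add G hG D v
  have h2 : degIn G Dᶜ v = d - 1 := by omega
  obtain ⟨p, hp⟩ := Fp_of_degIn_one G (W := WQ) (x := x) hv
  have h3 := hgood.two p
  have hk := ka_pos (m := m) (d + 1) (by omega)
  unfold uv nv
  rw [hp, h2]
  have e1 : d - 1 + 1 = d := by omega
  rw [e1, nm_pin_pow (by omega)]
  rw [← NNReal.coe_le_coe]
  refine h3.trans (le_of_eq ?_)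
  push_cast
  rw [Real.exp_add]
  congr 1
  have e2 : ((d : ℝ) + 2) * Real.log (ka m (d + 1)) = ((d + 2 : ℕ) : ℝ) * Real.log (ka m (d + 1)) := by
    push_cast; ring
  rw [e2, Real.exp_nat_mul, Real.exp_log hk]
  ring

lemma uv_once {d : ℕ} (hgood : Good m d) (hG : ∀ v, G.degree v = d) (D : Finset V)
    (x : V → ZMod m) {v : V} (hv : degIn G D v = 1) :
    av (fun t => uv G m D x v t) ≤ E1 * (ka m (d + 1) ^ (1 / (d : ℝ)) * nv G m D x v) := by
  have hd := hgood.two_le
  have hdR : (0 : ℝ) < d := by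
    have : 0 < d := by omega
    exact_mod_cast this
  have h1 := degIn_add G hG D v
  have h2 : degIn G Dᶜ v = d - 1 := by omega
  obtain ⟨p, hp⟩ := Fp_of_degIn_one G (W := WQ) (x := x) hv
  have h3 := hgood.one p
  have hk := ka_pos (m := m) (d + 1) (by omega)
  unfold uv nv
  rw [hp, h2]
  have e1 : d - 1 + 1 = d := by omega
  rw [e1]
  have h4 : nm (WQ : ZMod m → ZMod m → ℝ≥0) d (fun y => WQ p y) =
      ka m (d + 1) ^ (((d : ℝ) + 1) / d) := by
    have h5 := nm_pin_pow (m := m) (by omega : d ≠ 0) p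
    calc nm (WQ : ZMod m → ZMod m → ℝ≥0) d (fun y => WQ p y)
        = (nm (WQ : ZMod m → ZMod m → ℝ≥0) d (fun y => WQ p y) ^ d) ^ (1 / (d : ℝ)) := by
          rw [← NNReal.rpow_natCast, ← NNReal.rpow_mul, mul_one_div_cancel hdR.ne',
            NNReal.rpow_one]
      _ = _ := by
          rw [h5, ← NNReal.rpow_natCast, ← NNReal.rpow_mul]
          congr 1
          push_cast
          ring
  rw [h4, ← NNReal.rpow_add_of_nonneg _ (by positivity) (by positivity), ← NNReal.coe_le_coe]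
  refine h3.trans (le_of_eq ?_)
  push_cast
  rw [Real.exp_add]
  congr 1
  rw [Real.rpow_def_of_pos hk]
  congr 1
  field_simp
  ring

/-- The factor for a pin adjacent to earlier pins. -/
noncomputable def La (d : ℕ) : ℝ≥0 := ⟨24 * √((d : ℝ) + 1), by positivity⟩

lemma step_hub {d : ℕ} (hd : 0 < d) (hG : ∀ v, G.degree v = d) {D : Finset V} {z : V}
    (hz : z ∉ D) :
    av (WD G (WQ : ZMod m → ZMod m → ℝ≥0) (insert z D)) ≤
      La d ^ ((degIn G D z : ℝ) / d) * av (WD G (WQ : ZMod m → ZMod m → ℝ≥0) D) := by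
  apply WD_insert G isPos_WQ hz
  intro x
  set F := Fp G (WQ : ZMod m → ZMod m → ℝ≥0) D x z with hF
  set a := degIn G Dᶜ z with ha
  set j := degIn G D z with hj
  have haj : a + j = d := by
    have := degIn_add G hG D z
    omega
  have hcard : (outN G D z).card = a := card_outN G D z
  have hdR : (0 : ℝ) < d := by exact_mod_cast hd
  have hajR : (a : ℝ) + j = d := by exact_mod_cast haj
  have h1 := holder_pin (X := ZMod m) (outN G D z) hd (by rw [hcard]; exact haj) F
    (fun v t => uv G m D x v t)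
  refine h1.trans ?_
  have h2 : ∀ v ∈ outN G D z, av (fun t => F t * uv G m D x v t ^ d) ^ (1 / (d : ℝ)) ≤
      nm (WQ : ZMod m → ZMod m → ℝ≥0) (a + 1) F ^ (1 / (d : ℝ)) * nv G m D x v := by
    intro v hv
    have h3 := uv_bound G hG D x hz hv F
    have h4 := nm_anti isPos_WQ WQ_le_one (by omega : 1 ≤ a + 1) (by omega : a + 1 ≤ d + 1) F
    have h5 := h3.trans (mul_le_mul_left h4 _)
    refine (NNReal.rpow_le_rpow h5 (by positivity)).trans (le_of_eq ?_)
    rw [NNReal.mul_rpow, ← NNReal.rpow_natCast (nv G m D x v), ← NNReal.rpow_mul,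
      mul_one_div_cancel hdR.ne', NNReal.rpow_one]
  refine (mul_le_mul_right (Finset.prod_le_prod' h2) _).trans ?_
  rw [Finset.prod_mul_distrib, Finset.prod_const, hcard]
  have h6 : av F ≤ La d * nm (WQ : ZMod m → ZMod m → ℝ≥0) (a + 1) F := by
    rw [← NNReal.coe_le_coe]
    refine (av_le_nm (m := m) (a + 1) (by omega) F).trans ?_
    push_cast
    apply mul_le_mul_of_nonneg_right _ (by positivity)
    show 24 * √((a : ℝ) + 1) ≤ 24 * √((d : ℝ) + 1)
    apply mul_le_mul_of_nonneg_left _ (by norm_num)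
    apply Real.sqrt_le_sqrt
    have : (0 : ℝ) ≤ j := by positivity
    linarith
  set L := nm (WQ : ZMod m → ZMod m → ℝ≥0) (a + 1) F with hL
  have h7 : av F ^ ((j : ℝ) / d) ≤ La d ^ ((j : ℝ) / d) * L ^ ((j : ℝ) / d) := by
    rw [← NNReal.mul_rpow]
    exact NNReal.rpow_le_rpow h6 (by positivity)
  refine (mul_le_mul_left h7 _).trans (le_of_eq ?_)
  have h8 : L ^ ((j : ℝ) / d) * (L ^ (1 / (d : ℝ))) ^ a = L := by
    rw [← NNReal.rpow_natCast, ← NNReal.rpow_mul, ← NNReal.rpow_add_of_nonneg _ (by positivity)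
      (by positivity), one_div_mul_eq_div, ← add_div, add_comm (j : ℝ), hajR, div_self hdR.ne',
      NNReal.rpow_one]
  calc La d ^ ((j : ℝ) / d) * L ^ ((j : ℝ) / d) * ((L ^ (1 / (d : ℝ))) ^ a *
        ∏ v ∈ outN G D z, nv G m D x v)
      = La d ^ ((j : ℝ) / d) * ((L ^ ((j : ℝ) / d) * (L ^ (1 / (d : ℝ))) ^ a) *
        ∏ v ∈ outN G D z, nv G m D x v) := by ring
    _ = _ := by rw [h8]; rfl

lemma onceN_eq (D : Finset V) (z : V) :
    onceN G D z = ((outN G D z).filter fun v => degIn G D v = 1).card := by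
  unfold onceN outN
  rw [Finset.filter_filter]
  congr 1
  ext v
  simp [and_assoc]

lemma freshN_eq (D : Finset V) (z : V) :
    freshN G D z = ((outN G D z).filter fun v => degIn G D v = 0).card := by
  unfold freshN outN
  rw [Finset.filter_filter]
  congr 1
  ext v
  simp [and_assoc]

lemma multiN_eq (D : Finset V) (z : V) :
    multiN G D z = ((outN G D z).filter fun v => 2 ≤ degIn G D v).card := by
  unfold multiN outN
  rw [Finset.filter_filter]
  congr 1
  ext v
  simp [and_assoc]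

lemma sum_N (D : Finset V) (z : V) :
    onceN G D z + multiN G D z + freshN G D z = degIn G Dᶜ z := by
  rw [onceN_eq, freshN_eq, multiN_eq, ← card_outN]
  have h1 := Finset.card_filter_add_card_filter_not (s := outN G D z) (fun v => degIn G D v = 1)
  have h2 := Finset.card_filter_add_card_filter_not
    (s := (outN G D z).filter (fun v => ¬ degIn G D v = 1)) (fun v => degIn G D v = 0)
  have h3 : ((outN G D z).filter (fun v => ¬ degIn G D v = 1)).filter (fun v => degIn G D v = 0) =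
      (outN G D z).filter (fun v => degIn G D v = 0) := by
    rw [Finset.filter_filter]
    apply Finset.filter_congr
    intro v _
    constructor
    · exact fun h => h.2
    · exact fun h => ⟨by omega, h⟩
  have h4 : ((outN G D z).filter (fun v => ¬ degIn G D v = 1)).filter (fun v => ¬ degIn G D v = 0) =
      (outN G D z).filter (fun v => 2 ≤ degIn G D v) := by
    rw [Finset.filter_filter]
    apply Finset.filter_congr
    intro v _
    constructor
    · intro h; omega
    · intro h; omega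
  rw [h3, h4] at h2
  omega

lemma step_once {d : ℕ} (hgood : Good m d) (hG : ∀ v, G.degree v = d) {D : Finset V} {z : V}
    (hz : z ∉ D) (h0 : degIn G D z = 0) :
    av (WD G (WQ : ZMod m → ZMod m → ℝ≥0) (insert z D)) ≤
      E2 d ^ ((onceN G D z : ℝ) / d) * av (WD G (WQ : ZMod m → ZMod m → ℝ≥0) D) := by
  have hd := hgood.two_le
  apply WD_insert G isPos_WQ hz
  intro x
  rw [Fp_of_degIn_zero G h0]
  have haj : degIn G Dᶜ z = d := by
    have := degIn_add G hG D z
    omega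
  have hcard : (outN G D z).card = d := by rw [card_outN, haj]
  have hdR : (0 : ℝ) < d := by
    have : 0 < d := by omega
    exact_mod_cast this
  have h1 := holder_pin (X := ZMod m) (outN G D z) (k := 0) (by omega : 0 < d) (by omega)
    (fun _ => 1) (fun v t => uv G m D x v t)
  refine h1.trans ?_
  rw [av_const, NNReal.one_rpow, one_mul, haj]
  set κ := ka m (d + 1) with hκ
  have h2 : ∀ v ∈ outN G D z, av (fun t => (1 : ℝ≥0) * uv G m D x v t ^ d) ^ (1 / (d : ℝ)) ≤
      (if degIn G D v = 1 then E2 d ^ (1 / (d : ℝ)) else 1) *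
        (κ ^ (1 / (d : ℝ)) * nv G m D x v) := by
    intro v hv
    have e1 : κ ^ (1 / (d : ℝ)) * nv G m D x v = (κ * nv G m D x v ^ d) ^ (1 / (d : ℝ)) := by
      rw [NNReal.mul_rpow, ← NNReal.rpow_natCast (nv G m D x v), ← NNReal.rpow_mul,
        mul_one_div_cancel hdR.ne', NNReal.rpow_one]
    split_ifs with hv1
    · rw [e1, ← NNReal.mul_rpow]
      apply NNReal.rpow_le_rpow _ (by positivity)
      simp only [one_mul]
      exact uv_once_pow G hgood hG D x hv1
    · rw [e1, one_mul]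
      apply NNReal.rpow_le_rpow _ (by positivity)
      exact uv_bound G hG D x hz hv (fun _ => 1)
  refine (Finset.prod_le_prod' h2).trans (le_of_eq ?_)
  rw [Finset.prod_mul_distrib, Finset.prod_mul_distrib, Finset.prod_ite, Finset.prod_const_one,
    mul_one, Finset.prod_const, Finset.prod_const, hcard, ← onceN_eq]
  have e3 : (E2 d ^ (1 / (d : ℝ))) ^ onceN G D z = E2 d ^ ((onceN G D z : ℝ) / d) := by
    rw [← NNReal.rpow_natCast, ← NNReal.rpow_mul]
    congr 1
    ring
  have e4 : (κ ^ (1 / (d : ℝ))) ^ d = κ := by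
    rw [← NNReal.rpow_natCast, ← NNReal.rpow_mul, one_div_mul_cancel hdR.ne', NNReal.rpow_one]
  rw [e3, e4]
  rfl

lemma step_great {d : ℕ} (hgood : Good m d) (hG : ∀ v, G.degree v = d) {D : Finset V} {z : V}
    (hz : z ∉ D) (h0 : degIn G D z = 0) (h1 : 1 ≤ onceN G D z) :
    av (WD G (WQ : ZMod m → ZMod m → ℝ≥0) (insert z D)) ≤
      E1 ^ ((freshN G D z : ℝ) / ((d : ℝ) - 1)) *
        av (WD G (WQ : ZMod m → ZMod m → ℝ≥0) D) := by
  have hd := hgood.two_le
  apply WD_insert G isPos_WQ hz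
  intro x
  rw [Fp_of_degIn_zero G h0]
  have haj : degIn G Dᶜ z = d := by
    have := degIn_add G hG D z
    omega
  have hcard : (outN G D z).card = d := by rw [card_outN, haj]
  have hdR : (0 : ℝ) < d := by
    have : 0 < d := by omega
    exact_mod_cast this
  have hd2 : (2 : ℝ) ≤ d := by exact_mod_cast hd
  rw [haj]
  set κ := ka m (d + 1) with hκ
  rw [onceN_eq, Nat.succ_le_iff, Finset.card_pos] at h1
  obtain ⟨w, hw⟩ := h1
  rw [Finset.mem_filter] at hw
  set T0 := (outN G D z).filter (fun v => degIn G D v = 0) with hT0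
  set T1 := (outN G D z).filter (fun v => ¬ degIn G D v = 0) with hT1
  have hwT1 : w ∈ T1 := Finset.mem_filter.mpr ⟨hw.1, by omega⟩
  set R := T1.erase w with hR
  set t := freshN G D z with ht
  have ht0 : T0.card = t := (freshN_eq G D z).symm
  have hRcard : R.card + t + 1 = d := by
    have a1 := Finset.card_filter_add_card_filter_not (s := outN G D z)
      (fun v => degIn G D v = 0)
    have a2 := Finset.card_erase_of_mem hwT1
    have a3 : 0 < T1.card := Finset.card_pos.mpr ⟨w, hwT1⟩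
    rw [← hT0, ← hT1, hcard] at a1
    rw [← hR] at a2
    omega
  have hsplit : ∀ f : V → ℝ≥0, ∏ v ∈ outN G D z, f v = (∏ v ∈ T0, f v) * (f w * ∏ v ∈ R, f v) := by
    intro f
    rw [Finset.mul_prod_erase T1 f hwT1, hT0, hT1, Finset.prod_filter_mul_prod_filter_not]
  have hroot : ∀ a b : ℝ≥0, a ^ d = κ * b ^ d → a = κ ^ (1 / (d : ℝ)) * b := by
    intro a b hab
    calc a = (a ^ d) ^ (1 / (d : ℝ)) := by
          rw [← NNReal.rpow_natCast, ← NNReal.rpow_mul, mul_one_div_cancel hdR.ne',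
            NNReal.rpow_one]
      _ = _ := by
          rw [hab, NNReal.mul_rpow, ← NNReal.rpow_natCast b, ← NNReal.rpow_mul,
            mul_one_div_cancel hdR.ne', NNReal.rpow_one]
  have h2 : ∀ s : ZMod m, (1 : ℝ≥0) * ∏ v ∈ outN G D z, uv G m D x v s =
      (∏ v ∈ T0, (κ ^ (1 / (d : ℝ)) * nv G m D x v)) *
        (uv G m D x w s * ∏ v ∈ R, uv G m D x v s) := by
    intro s
    rw [one_mul, hsplit]
    congr 1
    apply Finset.prod_congr rfl
    intro v hv
    apply hroot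
    exact uv_fresh G (by omega) hG D x (Finset.mem_filter.mp hv).2 s
  have h3 : av (fun s : ZMod m => (1 : ℝ≥0) * ∏ v ∈ outN G D z, uv G m D x v s) =
      (∏ v ∈ T0, (κ ^ (1 / (d : ℝ)) * nv G m D x v)) *
        av (fun s => uv G m D x w s * ∏ v ∈ R, uv G m D x v s) := by
    rw [← av_mul_left]
    exact av_congr h2
  refine (le_of_eq h3).trans ?_
  have h4 := holder_great (X := ZMod m) R hd hRcard (uv G m D x w) (fun v => uv G m D x v)
  have hwo : w ∈ outN G D z := hw.1
  have hpw : ∀ v ∈ outN G D z, av (fun s => uv G m D x v s ^ d) ≤ κ * nv G m D x v ^ d := by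
    intro v hv
    have := uv_bound G hG D x hz hv (fun _ => 1)
    simp only [one_mul] at this
    exact this
  have hr1 : ∀ v ∈ R, av (fun s => uv G m D x v s ^ d) ^ (1 / (d : ℝ)) ≤
      κ ^ (1 / (d : ℝ)) * nv G m D x v := by
    intro v hv
    have hv' : v ∈ outN G D z := by
      have := Finset.mem_of_mem_erase hv
      exact (Finset.mem_filter.mp this).1
    have e1 : κ ^ (1 / (d : ℝ)) * nv G m D x v = (κ * nv G m D x v ^ d) ^ (1 / (d : ℝ)) := by
      rw [NNReal.mul_rpow, ← NNReal.rpow_natCast (nv G m D x v), ← NNReal.rpow_mul,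
        mul_one_div_cancel hdR.ne', NNReal.rpow_one]
    rw [e1]
    exact NNReal.rpow_le_rpow (hpw v hv') (by positivity)
  have hd1 : (0 : ℝ) < (d : ℝ) - 1 := by linarith
  have ha1 : av (uv G m D x w) ^ ((t : ℝ) / ((d : ℝ) - 1)) ≤
      (E1 * (κ ^ (1 / (d : ℝ)) * nv G m D x w)) ^ ((t : ℝ) / ((d : ℝ) - 1)) :=
    NNReal.rpow_le_rpow (uv_once G hgood hG D x hw.2) (by positivity)
  have ha2 : av (fun s => uv G m D x w s ^ d) ^ ((R.card : ℝ) / ((d : ℝ) * ((d : ℝ) - 1))) ≤
      (κ * nv G m D x w ^ d) ^ ((R.card : ℝ) / ((d : ℝ) * ((d : ℝ) - 1))) :=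
    NNReal.rpow_le_rpow (hpw w hwo) (by positivity)
  have h5 := h4.trans (mul_le_mul' ha1 (mul_le_mul' ha2 (Finset.prod_le_prod' hr1)))
  refine (mul_le_mul_right h5 _).trans (le_of_eq ?_)
  rw [hsplit (fun v => nm (WQ : ZMod m → ZMod m → ℝ≥0) (degIn G Dᶜ v + 1)
    (Fp G (WQ : ZMod m → ZMod m → ℝ≥0) D x v))]
  change _ = E1 ^ ((t : ℝ) / ((d : ℝ) - 1)) * (κ * ((∏ v ∈ T0, nv G m D x v) *
    (nv G m D x w * ∏ v ∈ R, nv G m D x v)))
  rw [Finset.prod_mul_distrib, Finset.prod_mul_distrib, Finset.prod_const, Finset.prod_const,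
    ht0]
  set a := nv G m D x w
  set P0 := ∏ v ∈ T0, nv G m D x v
  set P1 := ∏ v ∈ R, nv G m D x v
  have hRR : (R.card : ℝ) + t + 1 = d := by exact_mod_cast hRcard
  have e5 : (E1 * (κ ^ (1 / (d : ℝ)) * a)) ^ ((t : ℝ) / ((d : ℝ) - 1)) =
      E1 ^ ((t : ℝ) / ((d : ℝ) - 1)) *
        ((κ ^ (1 / (d : ℝ) * ((t : ℝ) / ((d : ℝ) - 1)))) * a ^ ((t : ℝ) / ((d : ℝ) - 1))) := by
    rw [NNReal.mul_rpow, NNReal.mul_rpow, ← NNReal.rpow_mul]
  have e6 : (κ * a ^ d) ^ ((R.card : ℝ) / ((d : ℝ) * ((d : ℝ) - 1))) =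
      κ ^ ((R.card : ℝ) / ((d : ℝ) * ((d : ℝ) - 1))) * a ^ ((R.card : ℝ) / ((d : ℝ) - 1)) := by
    rw [NNReal.mul_rpow, ← NNReal.rpow_natCast a, ← NNReal.rpow_mul, arith_b hdR]
  have e7 : a ^ ((t : ℝ) / ((d : ℝ) - 1)) * a ^ ((R.card : ℝ) / ((d : ℝ) - 1)) = a := by
    rw [← NNReal.rpow_add_of_nonneg _ (by positivity) (by positivity), ← add_div]
    have : (t : ℝ) + R.card = d - 1 := by linarith
    rw [this, div_self hd1.ne', NNReal.rpow_one]
  have e8 : (κ ^ (1 / (d : ℝ))) ^ t * (κ ^ (1 / (d : ℝ) * ((t : ℝ) / ((d : ℝ) - 1))) *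
      (κ ^ ((R.card : ℝ) / ((d : ℝ) * ((d : ℝ) - 1))) * (κ ^ (1 / (d : ℝ))) ^ R.card)) = κ := by
    rw [← NNReal.rpow_natCast _ t, ← NNReal.rpow_natCast _ R.card, ← NNReal.rpow_mul,
      ← NNReal.rpow_mul, ← NNReal.rpow_add_of_nonneg _ (by positivity) (by positivity),
      ← NNReal.rpow_add_of_nonneg _ (by positivity) (by positivity),
      ← NNReal.rpow_add_of_nonneg _ (by positivity) (by positivity)]
    rw [arith_a hdR hd1 hRR, NNReal.rpow_one]
  rw [e5, e6, arith_c, e8, e7]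

end Pool.Agent.MP_a3e05c_co
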